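import Pool.Agent.Rad2.Sections

/-!
# Radical words and sections of the representation
-/

set_option autoImplicit false

namespace Pool.Agent.Rad2

open Pool.Agent.Rad (run IsReset IsRadical run_append)
open Module

variable {Q A K : Type*} [Field K]

/-- An idempotent right multiple of `x` in the class of `e`. -/
theorem exists_idem_mul [Finite Q] {δ : Q → A → Q} {e x : List A} (he : MinIdem δ e)
    (hx : Divides δ x e) : ∃ f y : List A, (∀ p, run δ p (x ++ y) = run δ p f) ∧
      (∀ p, run δ p (f ++ f) = run δ p f) ∧ Divides δ f e ∧ Divides δ e f := by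
  obtain ⟨a, b, hab⟩ := hx
  have hidem := he.idem
  simp only [run_append] at hab hidem
  refine ⟨x ++ (b ++ e ++ a), b ++ e ++ a, fun p => rfl, fun p => ?_, ?_, ?_⟩
  · simp only [run_append]
    rw [hab, hidem, hidem]
  · refine ⟨a, x ++ b, fun p => ?_⟩
    simp only [run_append]
    rw [hab, hab, hidem, hidem]
  · refine ⟨x ++ b, a, fun p => ?_⟩
    simp only [run_append]

theorem rank_le_nil [Finite Q] {δ : Q → A → Q} {U : Submodule K (Q → K)} (hU : Inv δ U)
    (U' : Submodule K (Q → K)) (x : List A) : rank δ U U' x ≤ rank δ U U' [] :=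
  rank_append_le hU U' [] x

/-- Starting from any word, a short word leads out of the class of `e`. -/
theorem kill [Fintype Q] {δ : Q → A → Q} (hs : ∃ w, IsReset δ w) {e : List A}
    (he : MinIdem δ e) {U U' : Submodule K (Q → K)} (hU : Inv δ U) (hU' : Inv δ U')
    (hk : ∀ g, IsRadical δ g → Kills δ U U' g) (hpos : 0 < rank δ U U' e) :
    ∀ m : ℕ, ∀ x : List A, rank δ U U' x ≤ m → ∃ u : List A, ¬ Divides δ (x ++ u) e ∧
      rank δ U U' e * (u.length * ((img δ e).ncard * ((img δ e).ncard - 1))) ≤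
        (PP δ e).ncard * m := by
  intro m
  induction m using Nat.strong_induction_on with
  | _ m ih =>
    intro x hx
    by_cases hd : Divides δ x e
    swap
    · exact ⟨[], by rwa [List.append_nil], by simp⟩
    obtain ⟨f, y, hf, hidem, hfe, hef⟩ := exists_idem_mul he hd
    have hefx : Divides δ e (f ++ x) :=
      hef.trans ⟨[], x, fun p => by rw [List.nil_append]⟩
    obtain ⟨z, hz, hlen⟩ := exit hs he hefx
    have hrad : IsRadical δ (f ++ x ++ z) :=
      radical_of_not_div he (hefx.trans ⟨[], z, fun p => by rw [List.nil_append]⟩) hz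
    have hdrop := rank_drop hU hU' hf hidem (hk _ hrad)
    have hfr := rank_div hU hU' hfe
    obtain ⟨u, hu, hulen⟩ := ih (m - rank δ U U' e) (by omega) (x ++ z) (by omega)
    refine ⟨z ++ u, by rwa [← List.append_assoc], ?_⟩
    rw [List.length_append, add_mul, mul_add]
    have h1 : rank δ U U' e * (z.length * ((img δ e).ncard * ((img δ e).ncard - 1))) ≤
        (PP δ e).ncard * rank δ U U' e := by
      rw [mul_comm]
      exact Nat.mul_le_mul_right _ hlen
    have h2 : (PP δ e).ncard * m = (PP δ e).ncard * rank δ U U' e +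
        (PP δ e).ncard * (m - rank δ U U' e) := by
      rw [← mul_add]
      congr 1
      omega
    omega

/-- The pairs of the classes which a word does not leave. -/
def NN (δ : Q → A → Q) (x : List A) : Set (Q × Q) :=
  {π | ∃ e, MinIdem δ e ∧ Divides δ x e ∧ π ∈ PP δ e}

theorem ncard_NN_le [Fintype Q] (δ : Q → A → Q) (x : List A) :
    (NN δ x).ncard ≤ Fintype.card Q * (Fintype.card Q - 1) := by
  have h1 := ncard_offDiag (Set.univ : Set Q)
  rw [Set.ncard_univ, Nat.card_eq_fintype_card] at h1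
  rw [← h1]
  refine Set.ncard_le_ncard ?_ (Set.toFinite _)
  rintro z ⟨e, _, _, g, _, _, hz⟩
  rw [Set.mem_offDiag] at hz ⊢
  exact ⟨trivial, trivial, hz.2.2⟩

/-- The main induction: the classes are left one after the other. -/
theorem main_induction [Fintype Q] {δ : Q → A → Q} (C : ℝ) (hC : 0 ≤ C) (w : List A)
    (hstep : ∀ e, MinIdem δ e → Divides δ w e → ∀ x : List A, ∃ u : List A,
      ¬ Divides δ (x ++ u) e ∧ (u.length : ℝ) ≤ C * (PP δ e).ncard) :
    ∀ m : ℕ, ∀ x : List A, (NN δ (w ++ x)).ncard ≤ m →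
      ∃ u : List A, IsRadical δ (w ++ x ++ u) ∧ (u.length : ℝ) ≤ C * m := by
  intro m
  induction m using Nat.strong_induction_on with
  | _ m ih =>
    intro x hx
    by_cases hr : IsRadical δ (w ++ x)
    · refine ⟨[], by rwa [List.append_nil], ?_⟩
      simpa using mul_nonneg hC (Nat.cast_nonneg m)
    obtain ⟨e, he, hd⟩ := exists_minIdem hr
    obtain ⟨u, hu, hlen⟩ := hstep e he hd.left (w ++ x)
    have hsub : NN δ (w ++ (x ++ u)) ⊆ NN δ (w ++ x) \ PP δ e := by
      rw [← List.append_assoc]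
      rintro π ⟨e', he', hd', hπ⟩
      refine ⟨⟨e', he', hd'.left, hπ⟩, fun hπ' => ?_⟩
      exact hu (hd'.trans (common he he' hπ' hπ))
    have hPP : PP δ e ⊆ NN δ (w ++ x) := fun π hπ => ⟨e, he, hd, hπ⟩
    have hpos : 0 < (PP δ e).ncard := (Set.ncard_pos (Set.toFinite _)).2 (PP_nonempty he)
    have h1 : (NN δ (w ++ (x ++ u))).ncard + (PP δ e).ncard ≤ (NN δ (w ++ x)).ncard := by
      have h2 := Set.ncard_le_ncard hsub (Set.toFinite _)
      have h3 := Set.ncard_sdiff_add_ncard_of_subset hPP (Set.toFinite _)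
      omega
    obtain ⟨v, hv, hvlen⟩ := ih (m - (PP δ e).ncard) (by omega) (x ++ u) (by omega)
    refine ⟨u ++ v, by simpa only [List.append_assoc] using hv, ?_⟩
    rw [List.length_append]
    push_cast
    have h2 : ((m - (PP δ e).ncard : ℕ) : ℝ) = m - (PP δ e).ncard := Nat.cast_sub (by omega)
    rw [h2] at hvlen
    nlinarith

/-- A section with a good ratio has a simple subsection with a good ratio. -/
theorem exists_simple [Finite Q] {δ : Q → A → Q} {e : List A}
    (hidem : ∀ p, run δ p (e ++ e) = run δ p e) (c : ℝ) :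
    ∀ m : ℕ, ∀ U U' : Submodule K (Q → K), Inv δ U → Inv δ U' → U ≤ U' →
      finrank K U' - finrank K U ≤ m → 0 < rank δ U U' e →
      (finrank K U' : ℝ) - finrank K U ≤ c * rank δ U U' e →
      ∃ Y Y' : Submodule K (Q → K), Inv δ Y ∧ Inv δ Y' ∧ Y ≤ Y' ∧ Y' ≤ U' ∧ Simple δ Y Y' ∧
        0 < rank δ Y Y' e ∧ (finrank K Y' : ℝ) - finrank K Y ≤ c * rank δ Y Y' e := by
  intro m
  induction m using Nat.strong_induction_on with
  | _ m ih =>
    intro U U' hU hU' hle hm hpos hc
    by_cases hsimp : Simple δ U U'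
    · exact ⟨U, U', hU, hU', hle, le_rfl, hsimp, hpos, hc⟩
    unfold Simple at hsimp
    push Not at hsimp
    obtain ⟨Y, hY, h1, h2, h3, h4⟩ := hsimp
    have hlt1 : finrank K U < finrank K Y :=
      Submodule.finrank_lt_finrank_of_lt (lt_of_le_of_ne h1 (Ne.symm h3))
    have hlt2 : finrank K Y < finrank K U' :=
      Submodule.finrank_lt_finrank_of_lt (lt_of_le_of_ne h2 h4)
    have hsub := rank_sub (U' := U') h1 hidem
    by_cases hc1 : 0 < rank δ U Y e ∧ (finrank K Y : ℝ) - finrank K U ≤ c * rank δ U Y e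
    · obtain ⟨Z, Z', a1, a2, a3, a4, a5⟩ := ih (finrank K Y - finrank K U) (by omega) U Y hU hY h1
        le_rfl hc1.1 hc1.2
      exact ⟨Z, Z', a1, a2, a3, a4.trans h2, a5⟩
    by_cases hc2 : 0 < rank δ Y U' e ∧ (finrank K U' : ℝ) - finrank K Y ≤ c * rank δ Y U' e
    · exact ih (finrank K U' - finrank K Y) (by omega) Y U' hY hU' h2 le_rfl hc2.1 hc2.2
    exfalso
    have g1 : (finrank K U : ℝ) < finrank K Y := by exact_mod_cast hlt1
    have g2 : (finrank K Y : ℝ) < finrank K U' := by exact_mod_cast hlt2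
    have g3 : (0 : ℝ) < rank δ U U' e := by exact_mod_cast hpos
    have g4 : (rank δ U U' e : ℝ) ≤ rank δ U Y e + rank δ Y U' e := by exact_mod_cast hsub
    have hc0 : 0 < c := by
      by_contra hcon
      push Not at hcon
      nlinarith
    have g5 : c * rank δ U Y e < (finrank K Y : ℝ) - finrank K U := by
      rcases Nat.eq_zero_or_pos (rank δ U Y e) with h0 | h0
      · rw [h0, Nat.cast_zero, mul_zero]
        linarith
      · by_contra hcon
        push Not at hcon
        exact hc1 ⟨h0, hcon⟩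
    have g6 : c * rank δ Y U' e < (finrank K U' : ℝ) - finrank K Y := by
      rcases Nat.eq_zero_or_pos (rank δ Y U' e) with h0 | h0
      · rw [h0, Nat.cast_zero, mul_zero]
        linarith
      · by_contra hcon
        push Not at hcon
        exact hc2 ⟨h0, hcon⟩
    nlinarith

/-- The bound by the sections of the representation. -/
theorem section_bound [Fintype Q] {δ : Q → A → Q} (hs : ∃ w, IsReset δ w) (C : ℝ) (hC : 0 ≤ C)
    (w : List A) (h : ∀ e, MinIdem δ e → Divides δ w e → ∃ U U' : Submodule K (Q → K), Inv δ U ∧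
      Inv δ U' ∧ U ≤ U' ∧ U' ≤ V K Q ∧ 0 < rank δ U U' e ∧
      (finrank K U' : ℝ) - finrank K U ≤
        C * ((img δ e).ncard * ((img δ e).ncard - 1)) * rank δ U U' e) :
    ∃ u, IsRadical δ (w ++ u) ∧
      (u.length : ℝ) ≤ C * (Fintype.card Q * (Fintype.card Q - 1)) := by
  have hn : 1 ≤ Fintype.card Q := by
    obtain ⟨_, q, _⟩ := hs
    exact Fintype.card_pos_iff.2 ⟨q⟩
  have hkill : ∀ e, MinIdem δ e → Divides δ w e → ∀ x : List A, ∃ u : List A,
      ¬ Divides δ (x ++ u) e ∧ (u.length : ℝ) ≤ C * (PP δ e).ncard := by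
    intro e he hd x
    obtain ⟨U₀, U₁, hU₀, hU₁, hle₀, hV₀, hpos₀, hc₀⟩ := h e he hd
    obtain ⟨U, U', hU, hU', hle, hV, hsimp, hpos, hc⟩ :=
      exists_simple he.idem _ _ U₀ U₁ hU₀ hU₁ hle₀ le_rfl hpos₀ hc₀
    have h2 := he.two_le
    have h3 : (2 : ℝ) ≤ (img δ e).ncard := by exact_mod_cast h2
    have hcast : (((img δ e).ncard * ((img δ e).ncard - 1) : ℕ) : ℝ) =
        (img δ e).ncard * ((img δ e).ncard - 1) := by
      rw [Nat.cast_mul, Nat.cast_sub (by omega), Nat.cast_one]
    have hSpos : (0 : ℝ) < (img δ e).ncard * ((img δ e).ncard - 1) := by nlinarith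
    have hρ : (0 : ℝ) < rank δ U U' e := by exact_mod_cast hpos
    have hD : (rank δ U U' [] : ℝ) = finrank K U' - finrank K U := by
      rw [← rank_nil (K := K) δ hle]
      push_cast
      ring
    obtain ⟨u, hu, hlen⟩ := kill hs he hU hU'
      (fun g hg => kills_of_simple hU hU' hle (hV.trans hV₀) hsimp hg) hpos
      (rank δ U U' []) x (rank_le_nil hU U' x)
    refine ⟨u, hu, ?_⟩
    have h4 : (rank δ U U' e : ℝ) * (u.length * ((img δ e).ncard * ((img δ e).ncard - 1))) ≤
        (PP δ e).ncard * rank δ U U' [] := by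
      rw [← hcast]
      exact_mod_cast hlen
    have h5 : (rank δ U U' e : ℝ) * (u.length * ((img δ e).ncard * ((img δ e).ncard - 1))) ≤
        (PP δ e).ncard *
          (C * ((img δ e).ncard * ((img δ e).ncard - 1)) * rank δ U U' e) := by
      refine h4.trans (mul_le_mul_of_nonneg_left ?_ (Nat.cast_nonneg _))
      rw [hD]
      exact hc
    have h6 : ((img δ e).ncard * ((img δ e).ncard - 1) * rank δ U U' e : ℝ) * u.length ≤
        ((img δ e).ncard * ((img δ e).ncard - 1) * rank δ U U' e : ℝ) *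
          (C * (PP δ e).ncard) := by
      calc _ = (rank δ U U' e : ℝ) *
            (u.length * ((img δ e).ncard * ((img δ e).ncard - 1))) := by ring
        _ ≤ _ := h5
        _ = _ := by ring
    exact le_of_mul_le_mul_left h6 (mul_pos hSpos hρ)
  obtain ⟨u, hu, hlen⟩ := main_induction C hC w hkill _ [] le_rfl
  refine ⟨u, by simpa only [List.append_nil] using hu, hlen.trans ?_⟩
  refine mul_le_mul_of_nonneg_left ?_ hC
  have h3 : ((Fintype.card Q * (Fintype.card Q - 1) : ℕ) : ℝ) =
      Fintype.card Q * (Fintype.card Q - 1) := by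
    rw [Nat.cast_mul, Nat.cast_sub hn, Nat.cast_one]
  rw [← h3]
  exact_mod_cast ncard_NN_le δ (w ++ [])

end Pool.Agent.Rad2
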