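import Pool.Agent.Rad2.Intrans

/-!
# Radical words and sections of the representation: consequences
-/

set_option autoImplicit false

namespace Pool.Agent.Rad2

open Pool.Agent.Rad (run IsReset IsRadical run_append)
open Module

variable {Q A K : Type*} [Field K]

theorem bot_inv [Finite Q] (δ : Q → A → Q) : Inv δ (⊥ : Submodule K (Q → K)) := by
  intro a x hx
  rw [Submodule.mem_bot] at hx ⊢
  rw [hx, map_zero]

theorem V_inv [Fintype Q] (δ : Q → A → Q) : Inv δ (V K Q) := by
  intro a x hx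
  have h1 : (∑ q, LinearMap.proj q : (Q → K) →ₗ[K] K) ∘ₗ lin K δ [a] = ∑ q, LinearMap.proj q := by
    refine hom_ext fun p => ?_
    rw [LinearMap.comp_apply, lin_bv, LinearMap.sum_apply, LinearMap.sum_apply]
    simp only [LinearMap.proj_apply]
    rw [sum_bv, sum_bv]
  have h2 := congrArg (fun f => f x) h1
  simp only [LinearMap.comp_apply] at h2
  unfold V at hx ⊢
  rw [LinearMap.mem_ker] at hx ⊢
  rw [h2, hx]

/-- The rank of an idempotent on `V`. -/
theorem rank_V [Fintype Q] {δ : Q → A → Q} {f : List A}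
    (hidem : ∀ p, run δ p (f ++ f) = run δ p f) :
    (img δ f).ncard ≤ rank δ (⊥ : Submodule K (Q → K)) (V K Q) f + 1 := by
  rcases Set.eq_empty_or_nonempty (img δ f) with h0 | ⟨p0, hp0⟩
  · rw [h0, Set.ncard_empty]
    exact Nat.zero_le _
  have hfix : ∀ p ∈ img δ f, run δ p f = p := by
    rintro _ ⟨p, rfl⟩
    have := hidem p
    rw [run_append] at this
    exact this
  have hr : finrank K ((V K Q).map (lin K δ f)) = rank δ (⊥ : Submodule K (Q → K)) (V K Q) f := by
    unfold rank
    have h2 : Function.Injective (⊥ : Submodule K (Q → K)).mkQ := by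
      rw [← LinearMap.ker_eq_bot, Submodule.ker_mkQ]
    rw [Submodule.map_comp,
      ← (Submodule.equivMapOfInjective _ h2 ((V K Q).map (lin K δ f))).finrank_eq]
  rw [← hr, ← finrank_span_bv (K := K) (img δ f)]
  have h3 : Submodule.span K (bv K '' img δ f) ≤
      (V K Q).map (lin K δ f) ⊔ Submodule.span K {bv K p0} := by
    rw [Submodule.span_le]
    rintro _ ⟨p, hp, rfl⟩
    have h4 : bv K p = (bv K p - bv K p0) + bv K p0 := by abel
    rw [SetLike.mem_coe, h4]
    refine Submodule.add_mem_sup ⟨bv K p - bv K p0, diff_mem_V p p0, ?_⟩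
      (Submodule.mem_span_singleton_self _)
    rw [lin_diff, hfix p hp, hfix p0 hp0]
  refine (Submodule.finrank_mono h3).trans ((Submodule.finrank_add_le_finrank_add_finrank _ _).trans
    (Nat.add_le_add_left ?_ _))
  exact finrank_span_le_card ({bv K p0} : Set (Q → K)) |>.trans (by simp)

/-- All idempotents which are not constant have rank at least `r`. -/
theorem wide_bound [Fintype Q] {δ : Q → A → Q} (hs : ∃ w, IsReset δ w) (r : ℕ) (hr : 2 ≤ r)
    (w : List A) (h : ∀ e, MinIdem δ e → Divides δ w e → r ≤ (img δ e).ncard) :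
    ∃ u, IsRadical δ (w ++ u) ∧ u.length * (r * (r - 1) ^ 2) ≤
      Fintype.card Q * (Fintype.card Q - 1) ^ 2 := by
  have hn : 1 ≤ Fintype.card Q := by
    obtain ⟨_, q, _⟩ := hs
    exact Fintype.card_pos_iff.2 ⟨q⟩
  have hn' : (1 : ℝ) ≤ Fintype.card Q := by exact_mod_cast hn
  have hr' : (2 : ℝ) ≤ r := by exact_mod_cast hr
  have hD : (0 : ℝ) < r * (r - 1) ^ 2 := mul_pos (by linarith) (pow_pos (by linarith) 2)
  obtain ⟨u, hu, hlen⟩ := section_bound (K := ℚ) hs ((Fintype.card Q - 1) / (r * (r - 1) ^ 2))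
    (div_nonneg (by linarith) hD.le) w (by
    intro e he hd
    have h1 := rank_V (K := ℚ) he.idem
    have h2 := h e he hd
    have h3 := finrank_V_le (K := ℚ) (Q := Q)
    refine ⟨⊥, V ℚ Q, bot_inv δ, V_inv δ, bot_le, le_rfl, by omega, ?_⟩
    rw [finrank_bot, Nat.cast_zero, sub_zero]
    have h3' : (finrank ℚ (V ℚ Q) : ℝ) ≤ Fintype.card Q - 1 := by
      have h4 : (finrank ℚ (V ℚ Q) : ℝ) ≤ ((Fintype.card Q - 1 : ℕ) : ℝ) := by exact_mod_cast h3
      rwa [Nat.cast_sub hn, Nat.cast_one] at h4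
    refine h3'.trans ?_
    have h1' : ((img δ e).ncard : ℝ) - 1 ≤ rank δ (⊥ : Submodule ℚ (Q → ℚ)) (V ℚ Q) e := by
      have h4 : ((img δ e).ncard : ℝ) ≤ rank δ (⊥ : Submodule ℚ (Q → ℚ)) (V ℚ Q) e + 1 := by
        exact_mod_cast h1
      linarith
    have h2' : (r : ℝ) ≤ (img δ e).ncard := by exact_mod_cast h2
    have h5 : (r : ℝ) * (r - 1) ^ 2 ≤ ((img δ e).ncard * ((img δ e).ncard - 1)) *
        rank δ (⊥ : Submodule ℚ (Q → ℚ)) (V ℚ Q) e := by
      have h6 : (r : ℝ) * (r - 1) ≤ (img δ e).ncard * ((img δ e).ncard - 1) :=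
        mul_le_mul h2' (by linarith) (by linarith) (by linarith)
      have h7 := mul_le_mul h6 (show (r : ℝ) - 1 ≤ rank δ (⊥ : Submodule ℚ (Q → ℚ)) (V ℚ Q) e by
        linarith) (by linarith) (by nlinarith)
      refine le_trans (le_of_eq ?_) h7
      ring
    have h8 : (Fintype.card Q - 1 : ℝ) = (Fintype.card Q - 1) / (r * (r - 1) ^ 2) *
        (r * (r - 1) ^ 2) := by
      rw [div_mul_cancel₀ _ hD.ne']
    rw [mul_assoc]
    conv_lhs => rw [h8]
    exact mul_le_mul_of_nonneg_left h5 (div_nonneg (by linarith) hD.le))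
  refine ⟨u, hu, ?_⟩
  have h1 : (u.length : ℝ) * (r * (r - 1) ^ 2) ≤
      Fintype.card Q * (Fintype.card Q - 1) ^ 2 := by
    have h2 := mul_le_mul_of_nonneg_right hlen hD.le
    refine h2.trans (le_of_eq ?_)
    rw [div_mul_eq_mul_div, div_mul_cancel₀ _ hD.ne']
    ring
  have h2 : ((u.length * (r * (r - 1) ^ 2) : ℕ) : ℝ) ≤
      ((Fintype.card Q * (Fintype.card Q - 1) ^ 2 : ℕ) : ℝ) := by
    push_cast [Nat.cast_sub hn, Nat.cast_sub (show 1 ≤ r by omega)]
    exact h1
  exact_mod_cast h2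

/-- Block triangular form with blocks of size at most `d`. -/
theorem block_bound [Fintype Q] {δ : Q → A → Q} (hs : ∃ w, IsReset δ w) (r d : ℕ) (hr : 2 ≤ r)
    (w : List A) (h : ∀ e, MinIdem δ e → Divides δ w e → r ≤ (img δ e).ncard) (m : ℕ)
    (U : ℕ → Submodule K (Q → K)) (h0 : U 0 = ⊥) (hm : U m = V K Q) (hU : ∀ i ≤ m, Inv δ (U i))
    (hle : ∀ i < m, U i ≤ U (i + 1)) (hd : ∀ i < m, finrank K (U (i + 1)) ≤ finrank K (U i) + d) :
    ∃ u, IsRadical δ (w ++ u) ∧ u.length * (r * (r - 1)) ≤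
      d * (Fintype.card Q * (Fintype.card Q - 1)) := by
  have hn : 1 ≤ Fintype.card Q := by
    obtain ⟨_, q, _⟩ := hs
    exact Fintype.card_pos_iff.2 ⟨q⟩
  have hr' : (2 : ℝ) ≤ r := by exact_mod_cast hr
  have hD : (0 : ℝ) < r * (r - 1) := mul_pos (by linarith) (by linarith)
  have hmono : ∀ i ≤ m, ∀ j ≤ i, U j ≤ U i := by
    intro i
    induction i with
    | zero =>
      intro _ j hj
      rw [Nat.le_zero.1 hj]
    | succ i ih =>
      intro hi j hj
      rcases Nat.lt_or_ge i j with h1 | h1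
      · rw [show j = i + 1 by omega]
      · exact (ih (by omega) j h1).trans (hle i (by omega))
  obtain ⟨u, hu, hlen⟩ := section_bound (K := K) hs (d / (r * (r - 1)))
    (div_nonneg (Nat.cast_nonneg _) hD.le) w (by
    intro e he hdiv
    have h1 := rank_V (K := K) he.idem
    have h2 := h e he hdiv
    obtain ⟨i, him, hi⟩ : ∃ i, i < m ∧ 0 < rank δ (U i) (U (i + 1)) e := by
      by_contra hcon
      push Not at hcon
      have hz : ∀ i ≤ m, rank δ (U 0) (U i) e = 0 := by
        intro i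
        induction i with
        | zero =>
          intro _
          have h5 := rank_le_nil (hU 0 (by omega)) (U 0) e
          have h6 := rank_nil (K := K) δ (le_refl (U 0))
          omega
        | succ i ih =>
          intro hi
          have h5 := rank_sub (U' := U (i + 1)) (hmono i (by omega) 0 (by omega)) he.idem
          have h6 := hcon i (by omega)
          have h7 := ih (by omega)
          omega
      have h5 := hz m le_rfl
      rw [h0, hm] at h5
      omega
    refine ⟨U i, U (i + 1), hU i (by omega), hU (i + 1) (by omega), hle i him, ?_, hi, ?_⟩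
    · rw [← hm]
      exact hmono m le_rfl (i + 1) (by omega)
    have h3 : (finrank K (U (i + 1)) : ℝ) ≤ finrank K (U i) + d := by exact_mod_cast hd i him
    have h4 : (1 : ℝ) ≤ rank δ (U i) (U (i + 1)) e := by exact_mod_cast hi
    have h2' : (r : ℝ) ≤ (img δ e).ncard := by exact_mod_cast h2
    have h6 : (r : ℝ) * (r - 1) ≤ (img δ e).ncard * ((img δ e).ncard - 1) :=
      mul_le_mul h2' (by linarith) (by linarith) (by linarith)
    have h7 : (d : ℝ) = d / (r * (r - 1)) * (r * (r - 1)) := by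
      rw [div_mul_cancel₀ _ hD.ne']
    have h8 : (0 : ℝ) ≤ d / (r * (r - 1)) := div_nonneg (Nat.cast_nonneg _) hD.le
    have h9 : (d : ℝ) ≤ d / (r * (r - 1)) * ((img δ e).ncard * ((img δ e).ncard - 1)) := by
      conv_lhs => rw [h7]
      exact mul_le_mul_of_nonneg_left h6 h8
    have h10 : (0 : ℝ) ≤ d / (r * (r - 1)) * ((img δ e).ncard * ((img δ e).ncard - 1)) :=
      le_trans (Nat.cast_nonneg _) h9
    nlinarith)
  refine ⟨u, hu, ?_⟩
  have h1 : (u.length : ℝ) * (r * (r - 1)) ≤
      d * (Fintype.card Q * (Fintype.card Q - 1)) := by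
    have h2 := mul_le_mul_of_nonneg_right hlen hD.le
    refine h2.trans (le_of_eq ?_)
    rw [div_mul_eq_mul_div, div_mul_cancel₀ _ hD.ne']
  have h2 : ((u.length * (r * (r - 1)) : ℕ) : ℝ) ≤
      ((d * (Fintype.card Q * (Fintype.card Q - 1)) : ℕ) : ℝ) := by
    push_cast [Nat.cast_sub hn, Nat.cast_sub (show 1 ≤ r by omega)]
    exact h1
  exact_mod_cast h2

end Pool.Agent.Rad2
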