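import Pool.Agent.Rad.Defs

/-!
# Minimal idempotents and sections: the definitions
-/

set_option autoImplicit false

namespace Pool.Agent.Rad2

open Pool.Agent.Rad

variable {Q A : Type*}

/-- The set of the states `p.w`. -/
def img (δ : Q → A → Q) (w : List A) : Set Q := Set.range fun p => run δ p w

/-- The word `w` fixes two different states. -/
def FixTwo (δ : Q → A → Q) (w : List A) : Prop :=
  ∃ p q, p ≠ q ∧ run δ p w = p ∧ run δ q w = q

/-- The word `x` divides the word `e`: some word `a x b` acts like `e`. -/
def Divides (δ : Q → A → Q) (x e : List A) : Prop :=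
  ∃ a b : List A, ∀ p, run δ p (a ++ x ++ b) = run δ p e

/-- `e` is a minimal idempotent: it acts as an idempotent map, this map is not constant, and every
word `c e c'` which fixes two different states divides `e`. -/
structure MinIdem (δ : Q → A → Q) (e : List A) : Prop where
  idem : ∀ p, run δ p (e ++ e) = run δ p e
  two : ∃ p q, run δ p e ≠ run δ q e
  min : ∀ c c' : List A, FixTwo δ (c ++ e ++ c') → Divides δ (c ++ e ++ c') e

/-- The word `w` can be undone on `L`: some word brings all `p.w`, `p ∈ L`, back to `p`. -/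
def Undo (δ : Q → A → Q) (L : Set Q) (w : List A) : Prop :=
  ∃ b : List A, ∀ p ∈ L, run δ p (w ++ b) = p

/-- The words `w` with `L.w = L` act transitively on `L`. -/
def Transitive (δ : Q → A → Q) (L : Set Q) : Prop :=
  ∀ p ∈ L, ∀ q ∈ L, ∃ w : List A, (fun r => run δ r w) '' L = L ∧ run δ p w = q

/-- Every state which can be reached from `L` lies in a set `L.w`, where `w` can be undone on `L`. -/
def Covers (δ : Q → A → Q) (L : Set Q) : Prop :=
  ∀ p ∈ L, ∀ v : List A, ∃ w : List A, Undo δ L w ∧ ∃ q ∈ L, run δ q w = run δ p v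

/-- The ordered pairs of different states which lie in a set `L.w`, where `w` can be undone on `L`. -/
def pairs (δ : Q → A → Q) (L : Set Q) : Set (Q × Q) :=
  {z | z.1 ≠ z.2 ∧ ∃ w : List A, Undo δ L w ∧ (∃ p ∈ L, run δ p w = z.1) ∧ ∃ q ∈ L, run δ q w = z.2}

/-- The action of a word on `K^Q`: the basis vector of `p` goes to the basis vector of `p.w`. -/
noncomputable def lin (K : Type*) [Field K] [Finite Q] (δ : Q → A → Q) (w : List A) :
    (Q → K) →ₗ[K] (Q → K) :=
  (Pi.basisFun K Q).constr K fun p => Pi.basisFun K Q (run δ p w)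

/-- The vectors whose coordinates have sum `0`. -/
def V (K Q : Type*) [Field K] [Fintype Q] : Submodule K (Q → K) :=
  LinearMap.ker (∑ q, LinearMap.proj q : (Q → K) →ₗ[K] K)

/-- The subspace `U` is invariant under all letters. -/
def Inv {K : Type*} [Field K] [Finite Q] (δ : Q → A → Q) (U : Submodule K (Q → K)) : Prop :=
  ∀ a, ∀ x ∈ U, lin K δ [a] x ∈ U

/-- The rank of the action of the word `w` on `U' / U`: the dimension of `(U' w + U) / U`. -/
noncomputable def rank {K : Type*} [Field K] [Finite Q] (δ : Q → A → Q)
    (U U' : Submodule K (Q → K)) (w : List A) : ℕ :=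
  Module.finrank K (U'.map (U.mkQ ∘ₗ lin K δ w))

end Pool.Agent.Rad2
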