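import Pool.Agent.Rad2.Bound

/-!
# Intransitive minimal idempotents
-/

set_option autoImplicit false

namespace Pool.Agent.Rad2

open Pool.Agent.Rad (run IsReset IsRadical run_append mu)
open Module

variable {Q A K : Type*} [Field K]

theorem divides_of_undo {δ : Q → A → Q} {e w : List A} (h : Undo δ (img δ e) w) :
    Divides δ (e ++ w) e := by
  obtain ⟨b, hb⟩ := h
  refine ⟨[], b, fun p => ?_⟩
  have := hb (run δ p e) ⟨p, rfl⟩
  rw [List.nil_append, List.append_assoc, run_append, this]

theorem undo_of_divides [Finite Q] {δ : Q → A → Q} {e w : List A}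
    (h : Divides δ (e ++ w) e) : Undo δ (img δ e) w := by
  obtain ⟨a, b, hab⟩ := h
  have h1 : img δ e ⊆ (fun p => run δ p (w ++ b)) '' img δ e := by
    conv_lhs => rw [← img_congr hab]
    rintro _ ⟨p, rfl⟩
    refine ⟨run δ (run δ p a) e, ⟨_, rfl⟩, ?_⟩
    simp only [run_append]
  obtain ⟨v, hv⟩ := exists_return h1
  exact ⟨b ++ v, fun p hp => by rw [← List.append_assoc]; exact hv p hp⟩

/-- A state leaves a set of states along a short word, if it leaves it at all. -/
theorem exists_short_out [Fintype Q] {δ : Q → A → Q} {X : Set Q} {p : Q}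
    (h : ∃ z, run δ p z ∉ X) : ∃ z, run δ p z ∉ X ∧ z.length ≤ Fintype.card Q - 1 := by
  classical
  have hex : ∃ k, ∃ z : List A, z.length = k ∧ run δ p z ∉ X := by
    obtain ⟨z, hz⟩ := h
    exact ⟨_, z, rfl, hz⟩
  obtain ⟨z, hzk, hz⟩ := Nat.find_spec hex
  have hmin : ∀ z' : List A, run δ p z' ∉ X → z.length ≤ z'.length := by
    intro z' hz'
    rw [hzk]
    exact Nat.find_min' hex ⟨z', rfl, hz'⟩
  refine ⟨z, hz, ?_⟩
  have hin : ∀ j : Fin z.length, run δ p (z.take j) ∈ X := by
    intro j
    by_contra hj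
    have h1 := hmin _ hj
    rw [List.length_take] at h1
    have := j.2
    omega
  have key : ∀ i j : Fin z.length, i < j → run δ p (z.take i) ≠ run δ p (z.take j) := by
    intro i j hij heq
    have h1 : run δ p (z.take i ++ z.drop j) = run δ p z := by
      rw [run_append, heq, ← run_append, List.take_append_drop]
    have h2 := hmin (z.take i ++ z.drop j) (by rw [h1]; exact hz)
    rw [List.length_append, List.length_take, List.length_drop] at h2
    have h3 : (i : ℕ) < j := hij
    have h4 := j.2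
    omega
  have hinj : Function.Injective fun j : Fin z.length => run δ p (z.take j) := by
    intro i j hij
    rcases lt_trichotomy i j with h | h | h
    · exact absurd hij (key i j h)
    · exact h
    · exact absurd hij.symm (key j i h)
  have h1 : (Set.range fun j : Fin z.length => run δ p (z.take j)).ncard ≤
      ((Set.univ : Set Q) \ {run δ p z}).ncard := by
    apply Set.ncard_le_ncard _ (Set.toFinite _)
    rintro _ ⟨j, rfl⟩
    refine ⟨trivial, fun h2 => ?_⟩
    rw [Set.mem_singleton_iff] at h2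
    exact hz (by rw [← h2]; exact hin j)
  rw [Set.ncard_sdiff_singleton_of_mem (Set.mem_univ _), Set.ncard_univ,
    Nat.card_eq_fintype_card, ← Set.image_univ, Set.ncard_image_of_injective _ hinj,
    Set.ncard_univ, Nat.card_fin] at h1
  exact h1

/-- `p` and `q` are in the same orbit of the words which map `L` onto itself. -/
def Orb (δ : Q → A → Q) (L : Set Q) (p q : Q) : Prop :=
  ∃ w : List A, (fun r => run δ r w) '' L = L ∧ run δ p w = q

theorem Orb.refl (δ : Q → A → Q) (L : Set Q) (p : Q) : Orb δ L p p :=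
  ⟨[], Set.image_id' L, rfl⟩

theorem Orb.trans {δ : Q → A → Q} {L : Set Q} {p q r : Q} (h : Orb δ L p q)
    (h' : Orb δ L q r) : Orb δ L p r := by
  obtain ⟨w, hw, rfl⟩ := h
  obtain ⟨v, hv, rfl⟩ := h'
  refine ⟨w ++ v, ?_, run_append δ p w v⟩
  conv_rhs => rw [← hv, ← hw, Set.image_image]
  simp only [run_append]

theorem Orb.symm [Finite Q] {δ : Q → A → Q} {L : Set Q} {p q : Q} (hp : p ∈ L)
    (h : Orb δ L p q) : Orb δ L q p := by
  obtain ⟨w, hw, rfl⟩ := h
  obtain ⟨v, hv⟩ := exists_return hw.symm.le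
  refine ⟨v, ?_, ?_⟩
  · conv_lhs => rw [← hw, Set.image_image]
    have h1 : Set.EqOn (fun x => run δ (run δ x w) v) id L := fun x hx => by
      show run δ (run δ x w) v = x
      rw [← run_append]
      exact hv x hx
    rw [h1.image_eq_self]
  · rw [← run_append]
    exact hv p hp

/-- The exit lemma for idempotents which do not cover. -/
theorem exit_of_not_covers [Fintype Q] {δ : Q → A → Q} {L : Set Q} (h : ¬ Covers δ L)
    (d : List A) : ∃ z, ¬ Undo δ L (d ++ z) ∧ z.length ≤ Fintype.card Q - 1 := by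
  by_cases hd : Undo δ L d
  swap
  · exact ⟨[], by rwa [List.append_nil], Nat.zero_le _⟩
  unfold Covers at h
  push Not at h
  obtain ⟨p, hp, v, hv⟩ := h
  obtain ⟨b, hb⟩ := hd
  obtain ⟨z, hz, hlen⟩ := exists_short_out (δ := δ) (p := run δ p d)
    (X := {x | ∃ w, Undo δ L w ∧ ∃ q ∈ L, run δ q w = x}) ⟨b ++ v, by
      rintro ⟨w, hw, q, hq, hqw⟩
      apply hv w hw q hq
      rw [hqw]
      have h1 := hb p hp
      simp only [run_append] at h1 ⊢
      rw [h1]⟩
  refine ⟨z, fun hu => hz ⟨d ++ z, hu, p, hp, run_append δ p d z⟩, hlen⟩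

/-- The exit lemma for intransitive idempotents. -/
theorem exit_of_not_transitive [Fintype Q] {δ : Q → A → Q} (hs : ∃ w, IsReset δ w)
    {e : List A} (he : MinIdem δ e) (h : ¬ Transitive δ (img δ e)) (d : List A) :
    ∃ z, ¬ Undo δ (img δ e) (d ++ z) ∧ z.length ≤ Fintype.card Q - 1 := by
  classical
  set L := img δ e with hL
  -- an inequivalent pair of minimal level
  have hex : ∃ m, ∃ p ∈ L, ∃ q ∈ L, ¬ Orb δ L p q ∧ mu δ s(p, q) = m := by
    unfold Transitive at h
    push Not at h
    obtain ⟨p, hp, q, hq, hpq⟩ := h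
    exact ⟨_, p, hp, q, hq, fun ⟨w, h1, h2⟩ => hpq w h1 h2, rfl⟩
  obtain ⟨p, hp, q, hq, hpq, hmu⟩ := Nat.find_spec hex
  have hmin : ∀ p' ∈ L, ∀ q' ∈ L, mu δ s(p', q') < mu δ s(p, q) → Orb δ L p' q' := by
    intro p' hp' q' hq' hlt
    by_contra hcon
    rw [hmu] at hlt
    exact Nat.find_min hex hlt ⟨p', hp', q', hq', hcon, rfl⟩
  have hne : p ≠ q := by
    rintro rfl
    exact hpq (Orb.refl δ L p)
  have hmemL : ∀ x, run δ x e ∈ L := fun x => ⟨x, rfl⟩
  -- words which lead out of the class identify the orbits of `p` and `q`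
  have hstar : ∀ m : List A, ¬ Divides δ (e ++ (m ++ e)) e →
      Orb δ L (run δ p (m ++ e)) (run δ q (m ++ e)) := by
    intro m hm
    have hrad : IsRadical δ (e ++ (m ++ e)) :=
      radical_of_not_div he ⟨[], m ++ e, fun p => by rw [List.nil_append]⟩ hm
    have h1 := mu_lt_of_radical hrad hne
    rw [run_append δ p e, run_append δ q e, he.fix hp, he.fix hq] at h1
    refine hmin _ ?_ _ ?_ h1
    · rw [run_append]; exact hmemL _
    · rw [run_append]; exact hmemL _
  have hstar' : ∀ m : List A, Divides δ (e ++ (m ++ e)) e → Orb δ L p (run δ p (m ++ e)) := by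
    intro m hm
    obtain ⟨b, hb⟩ := undo_of_divides hm
    refine ⟨m ++ e, ?_, rfl⟩
    have hinj : Set.InjOn (fun r => run δ r (m ++ e)) L := by
      intro x hx y hy hxy
      simp only at hxy
      have h1 := hb x hx
      have h2 := hb y hy
      rw [run_append, hxy, ← run_append, h2] at h1
      exact h1.symm
    refine Set.eq_of_subset_of_ncard_le ?_ hinj.ncard_image.ge (Set.toFinite _)
    rintro _ ⟨x, _, rfl⟩
    simp only [run_append]
    exact hmemL _
  by_cases hd : Undo δ L d
  swap
  · exact ⟨[], by rwa [List.append_nil], Nat.zero_le _⟩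
  by_cases hA : ∃ z, run δ (run δ p d) z ∉ {x | ∃ w, Undo δ L w ∧ run δ p w = x}
  · obtain ⟨z, hz, hlen⟩ := exists_short_out hA
    exact ⟨z, fun hu => hz ⟨d ++ z, hu, run_append δ p d z⟩, hlen⟩
  by_cases hB : ∃ z, run δ (run δ q d) z ∉ {x | ∃ w, Undo δ L w ∧ run δ q w = x}
  · obtain ⟨z, hz, hlen⟩ := exists_short_out hB
    exact ⟨z, fun hu => hz ⟨d ++ z, hu, run_append δ q d z⟩, hlen⟩
  exfalso
  push Not at hA hB
  obtain ⟨ω, c, hω⟩ := hs
  have hA' : ∀ z, ∃ w, Undo δ L w ∧ run δ p w = run δ c z := by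
    intro z
    have h1 := hA (ω ++ z)
    rw [run_append, hω] at h1
    exact h1
  have hB' : ∀ z, ∃ w, Undo δ L w ∧ run δ q w = run δ c z := by
    intro z
    have h1 := hB (ω ++ z)
    rw [run_append, hω] at h1
    exact h1
  -- all states which can be reached from `q` can be reached from `c`
  have hq' : ∀ w, ∃ z, run δ q w = run δ c z := by
    intro w
    obtain ⟨w1, ⟨b, hb⟩, hw1⟩ := hB' []
    refine ⟨b ++ w, ?_⟩
    have h1 := hb q hq
    rw [run_append, hw1] at h1
    rw [run_append]
    have h2 : run δ c b = q := h1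
    rw [h2]
  choose W hWu hWp using hA'
  choose R hR using hq'
  -- the iteration
  let next : List A → List A := fun z => R (W z)
  obtain ⟨i, j, hij, hijeq⟩ := Finite.exists_ne_map_eq_of_infinite
    fun i : ℕ => run δ c (next^[i] [])
  wlog hlt : i < j generalizing i j
  · exact this j i hij.symm hijeq.symm (by omega)
  replace hijeq : run δ c (next^[i] []) = run δ c (next^[j] []) := hijeq
  obtain ⟨f, hf⟩ := hWu (next^[i] [])
  have hnext : ∀ z, run δ c (next z) = run δ q (W z) := fun z => (hR (W z)).symm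
  have key : ∀ k, Orb δ L (run δ (run δ c (next^[i + 1 + k] [])) (f ++ e)) q := by
    intro k
    induction k with
    | zero =>
      rw [Nat.add_zero, Function.iterate_succ_apply', hnext, ← run_append, ← List.append_assoc,
        run_append δ q _ e, hf q hq, he.fix hq]
      exact Orb.refl δ L q
    | succ k ih =>
      set z := next^[i + 1 + k] [] with hz
      have h1 : next^[i + 1 + (k + 1)] [] = next z := by
        rw [hz, show i + 1 + (k + 1) = (i + 1 + k) + 1 by omega, Function.iterate_succ_apply']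
      rw [h1, hnext]
      have e1 : run δ (run δ c z) (f ++ e) = run δ p ((W z ++ f) ++ e) := by
        rw [← hWp z]
        simp only [run_append]
      have e2 : run δ (run δ q (W z)) (f ++ e) = run δ q ((W z ++ f) ++ e) := by
        simp only [run_append]
      rw [e1] at ih
      rw [e2]
      by_cases hdiv : Divides δ (e ++ ((W z ++ f) ++ e)) e
      · exact absurd ((hstar' _ hdiv).trans ih) hpq
      · refine Orb.trans (Orb.symm ?_ (hstar _ hdiv)) ih
        rw [run_append]
        exact hmemL _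
  have hlast := key (j - (i + 1))
  rw [show i + 1 + (j - (i + 1)) = j by omega, ← hijeq, ← hWp, ← run_append,
    ← List.append_assoc, run_append δ p _ e, hf p hp, he.fix hp] at hlast
  exact hpq hlast

/-- The exit lemma for minimal idempotents which are not both transitive and covering. -/
theorem exit_short [Fintype Q] {δ : Q → A → Q} (hs : ∃ w, IsReset δ w) {e g : List A}
    (he : MinIdem δ e) (h : ¬ (Transitive δ (img δ e) ∧ Covers δ (img δ e)))
    (h1 : Divides δ e g) : ∃ z, ¬ Divides δ (g ++ z) e ∧ z.length ≤ Fintype.card Q - 1 := by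
  obtain ⟨c, d, hcd⟩ := h1
  obtain ⟨z, hz, hlen⟩ : ∃ z, ¬ Undo δ (img δ e) (d ++ z) ∧ z.length ≤ Fintype.card Q - 1 := by
    by_cases hc : Covers δ (img δ e)
    · exact exit_of_not_transitive hs he (fun ht => h ⟨ht, hc⟩) d
    · exact exit_of_not_covers hc d
  refine ⟨z, fun hdiv => hz ?_, hlen⟩
  apply undo_of_divides
  have h2 : Divides δ ((c ++ (e ++ (d ++ z)))) e := by
    refine hdiv.congr fun p => ?_
    rw [run_append, ← hcd]
    simp only [run_append]
  exact h2.right

/-! ### The potential -/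

/-- The sum of the ranks of a word on the sections of the filtration. -/
noncomputable def Phi (K : Type*) [Field K] [Finite Q] (δ : Q → A → Q) (T : ℕ) (x : List A) : ℕ :=
  ∑ t ∈ Finset.range T, rank δ (LK K δ t) (LK K δ (t + 1)) x

theorem Phi_nil [Fintype Q] (δ : Q → A → Q) (T : ℕ) :
    Phi K δ T [] ≤ Fintype.card Q - 1 := by
  have h1 : Phi K δ T [] = finrank K (LK K δ T) := by
    unfold Phi
    induction T with
    | zero => rw [LK_zero, finrank_bot]; rfl
    | succ T ih =>
      rw [Finset.sum_range_succ, ih, add_comm]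
      exact rank_nil δ (LK_mono δ (Nat.le_succ T))
  rw [h1]
  exact (Submodule.finrank_mono (LK_le_V δ T)).trans finrank_V_le

theorem Phi_drop [Fintype Q] {δ : Q → A → Q} {x y f z : List A} (T : ℕ)
    (hf : ∀ p, run δ p (x ++ y) = run δ p f) (hidem : ∀ p, run δ p (f ++ f) = run δ p f)
    (hrad : IsRadical δ (f ++ x ++ z)) :
    Phi K δ T f + Phi K δ T (x ++ z) ≤ Phi K δ T x := by
  unfold Phi
  rw [← Finset.sum_add_distrib]
  exact Finset.sum_le_sum fun t _ =>
    rank_drop (LK_inv δ t) (LK_inv δ (t + 1)) hf hidem (kills_LK hrad t)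

theorem finrank_span_bv [Finite Q] (L : Set Q) :
    finrank K (Submodule.span K (bv K '' L)) = L.ncard := by
  classical
  have : Fintype Q := Fintype.ofFinite Q
  have hli : LinearIndependent K (bv K : Q → (Q → K)) := (Pi.basisFun K Q).linearIndependent
  have h1 : LinearIndependent K (fun x : L => bv K (x : Q)) := hli.comp _ Subtype.val_injective
  have h2 := finrank_span_eq_card h1
  rw [show Set.range (fun x : L => bv K (x : Q)) = bv K '' L by
    rw [Set.image_eq_range]] at h2
  rw [h2, ← Nat.card_eq_fintype_card]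
  rfl

theorem Phi_idem [Fintype Q] {δ : Q → A → Q} {f : List A}
    (hidem : ∀ p, run δ p (f ++ f) = run δ p f) (T : ℕ)
    (hT : V K Q ≤ LK K δ T) : (img δ f).ncard ≤ Phi K δ T f + 1 := by
  classical
  have h1 : ∀ t, rank δ (LK K δ 0) (LK K δ t) f ≤ Phi K δ t f := by
    intro t
    induction t with
    | zero =>
      have h2 := rank_le_nil (LK_inv (K := K) δ 0) (LK K δ 0) f
      have h3 := rank_nil (K := K) δ (le_refl (LK K δ 0))
      omega
    | succ t ih =>
      have h2 := rank_sub (U' := LK K δ (t + 1)) (LK_mono (K := K) δ (Nat.zero_le t)) hidem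
      unfold Phi at ih ⊢
      rw [Finset.sum_range_succ]
      omega
  refine le_trans ?_ (Nat.add_le_add_right (h1 T) 1)
  rcases Set.eq_empty_or_nonempty (img δ f) with h0 | ⟨p0, hp0⟩
  · rw [h0, Set.ncard_empty]
    exact Nat.zero_le _
  have hfix : ∀ p ∈ img δ f, run δ p f = p := by
    rintro _ ⟨p, rfl⟩
    have := hidem p
    rw [run_append] at this
    exact this
  have hr : finrank K ((V K Q).map (lin K δ f)) ≤ rank δ (LK K δ 0) (LK K δ T) f := by
    unfold rank
    have h2 : Function.Injective (LK K δ 0).mkQ := by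
      rw [← LinearMap.ker_eq_bot, Submodule.ker_mkQ, LK_zero]
    rw [Submodule.map_comp,
      ← (Submodule.equivMapOfInjective _ h2 ((LK K δ T).map (lin K δ f))).finrank_eq]
    exact Submodule.finrank_mono (Submodule.map_mono hT)
  refine le_trans ?_ (Nat.add_le_add_right hr 1)
  rw [← finrank_span_bv (K := K) (img δ f)]
  have h3 : Submodule.span K (bv K '' img δ f) ≤
      (V K Q).map (lin K δ f) ⊔ Submodule.span K {bv K p0} := by
    rw [Submodule.span_le]
    rintro _ ⟨p, hp, rfl⟩
    have h4 : bv K p = (bv K p - bv K p0) + bv K p0 := by abel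
    rw [SetLike.mem_coe, h4]
    refine Submodule.add_mem_sup ⟨bv K p - bv K p0, diff_mem_V p p0, ?_⟩
      (Submodule.mem_span_singleton_self _)
    rw [lin_diff, hfix p hp, hfix p0 hp0]
  refine (Submodule.finrank_mono h3).trans ((Submodule.finrank_add_le_finrank_add_finrank _ _).trans
    (Nat.add_le_add_left ?_ _))
  exact finrank_span_le_card ({bv K p0} : Set (Q → K)) |>.trans (by simp)

/-- The bound by the potential. -/
theorem potential_bound [Fintype Q] {δ : Q → A → Q} (c : ℝ) (hc : 0 ≤ c) (w : List A)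
    (h : ∀ e g, MinIdem δ e → Divides δ w e → Divides δ e g → ∃ z, ¬ Divides δ (g ++ z) e ∧
      (z.length : ℝ) ≤ c * ((img δ e).ncard - 1)) :
    ∃ u, IsRadical δ (w ++ u) ∧ (u.length : ℝ) ≤ c * (Fintype.card Q - 1 : ℕ) := by
  set T := (Set.univ : Set (Sym2 Q)).ncard with hT
  have key : ∀ m : ℕ, ∀ x : List A, Phi ℚ δ T (w ++ x) ≤ m →
      ∃ u : List A, IsRadical δ (w ++ x ++ u) ∧ (u.length : ℝ) ≤ c * m := by
    intro m
    induction m using Nat.strong_induction_on with
    | _ m ih =>
      intro x hx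
      by_cases hr : IsRadical δ (w ++ x)
      · refine ⟨[], by rwa [List.append_nil], ?_⟩
        simpa using mul_nonneg hc (Nat.cast_nonneg m)
      obtain ⟨e, he, hd⟩ := exists_minIdem hr
      obtain ⟨f, y, hf, hidem, hfe, hef⟩ := exists_idem_mul he hd
      have hefx : Divides δ e (f ++ (w ++ x)) :=
        hef.trans ⟨[], w ++ x, fun p => by rw [List.nil_append]⟩
      obtain ⟨z, hz, hlen⟩ := h e (f ++ (w ++ x)) he hd.left hefx
      have hrad : IsRadical δ (f ++ (w ++ x) ++ z) :=
        radical_of_not_div he (hefx.trans ⟨[], z, fun p => by rw [List.nil_append]⟩) hz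
      have hdrop := Phi_drop (K := ℚ) T hf hidem hrad
      have hfr := Phi_idem (K := ℚ) hidem T (V_le_LK δ)
      have hfe' := hfe.ncard_le
      have he2 := he.two_le
      obtain ⟨u, hu, hulen⟩ := ih (m - ((img δ e).ncard - 1)) (by omega) (x ++ z)
        (by rw [← List.append_assoc]; omega)
      refine ⟨z ++ u, by simpa only [List.append_assoc] using hu, ?_⟩
      rw [List.length_append]
      push_cast
      have h2 : ((m - ((img δ e).ncard - 1) : ℕ) : ℝ) = m - ((img δ e).ncard - 1) := by
        rw [Nat.cast_sub (by omega), Nat.cast_sub (by omega), Nat.cast_one]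
      rw [h2] at hulen
      nlinarith
  have h0 : Phi ℚ δ T (w ++ []) ≤ Fintype.card Q - 1 := by
    refine le_trans ?_ (Phi_nil (K := ℚ) δ T)
    unfold Phi
    exact Finset.sum_le_sum fun t _ => rank_le_nil (LK_inv δ t) _ _
  obtain ⟨u, hu, hlen⟩ := key _ [] h0
  exact ⟨u, by simpa only [List.append_nil] using hu, hlen⟩

theorem PP_subset_pairs [Finite Q] (δ : Q → A → Q) (e : List A) :
    PP δ e ⊆ pairs δ (img δ e) := by
  rintro z ⟨g, ⟨c, d, hcd⟩, h2, hz⟩
  rw [Set.mem_offDiag] at hz
  have hu : Undo δ (img δ e) d := by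
    apply undo_of_divides
    have h3 : Divides δ (c ++ (e ++ d)) e := by
      refine h2.congr fun p => ?_
      rw [← hcd]
      simp only [run_append]
    exact h3.right
  have key : ∀ x ∈ img δ g, ∃ p ∈ img δ e, run δ p d = x := by
    rintro _ ⟨x, rfl⟩
    refine ⟨run δ (run δ x c) e, ⟨_, rfl⟩, ?_⟩
    simp only
    rw [← hcd]
    simp only [run_append]
  exact ⟨hz.2.2, d, hu, key _ hz.1, key _ hz.2.1⟩

theorem intrans_bound [Fintype Q] {δ : Q → A → Q} (hs : ∃ w, IsReset δ w) (C : ℝ) (hC : 0 ≤ C)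
    (w : List A) (h : ∀ e, MinIdem δ e → Divides δ w e →
      (¬ (Transitive δ (img δ e) ∧ Covers δ (img δ e)) ∧ 1 ≤ C * ((img δ e).ncard - 1)) ∨
      ((pairs δ (img δ e)).ncard : ℝ) ≤
        C * (Fintype.card Q - 1) * ((img δ e).ncard * ((img δ e).ncard - 1) ^ 2)) :
    ∃ u, IsRadical δ (w ++ u) ∧ (u.length : ℝ) ≤ C * (Fintype.card Q - 1) ^ 2 := by
  have hn : 1 ≤ Fintype.card Q := by
    obtain ⟨_, q, _⟩ := hs
    exact Fintype.card_pos_iff.2 ⟨q⟩
  have hn' : (1 : ℝ) ≤ Fintype.card Q := by exact_mod_cast hn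
  have hc : 0 ≤ C * (Fintype.card Q - 1) := mul_nonneg hC (by linarith)
  obtain ⟨u, hu, hlen⟩ := potential_bound (δ := δ) (C * (Fintype.card Q - 1)) hc w (by
    intro e g he hd heg
    have h1 : (1 : ℝ) ≤ (img δ e).ncard - 1 := by
      have h3 : (2 : ℝ) ≤ (img δ e).ncard := by exact_mod_cast he.two_le
      linarith
    rcases h e he hd with ⟨h2, h3⟩ | h2
    · obtain ⟨z, hz, hlen⟩ := exit_short hs he h2 heg
      refine ⟨z, hz, ?_⟩
      have h4 : (z.length : ℝ) ≤ Fintype.card Q - 1 := by
        have h5 : (z.length : ℝ) ≤ ((Fintype.card Q - 1 : ℕ) : ℝ) := by exact_mod_cast hlen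
        rwa [Nat.cast_sub hn, Nat.cast_one] at h5
      nlinarith
    · obtain ⟨z, hz, hlen⟩ := exit hs he heg
      refine ⟨z, hz, ?_⟩
      have h4 : (z.length : ℝ) * ((img δ e).ncard * ((img δ e).ncard - 1)) ≤
          (pairs δ (img δ e)).ncard := by
        have h5 : ((z.length * ((img δ e).ncard * ((img δ e).ncard - 1)) : ℕ) : ℝ) ≤
            (pairs δ (img δ e)).ncard := by
          exact_mod_cast hlen.trans (Set.ncard_le_ncard (PP_subset_pairs δ e) (Set.toFinite _))
        have h6 := he.two_le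
        rw [Nat.cast_mul, Nat.cast_mul, Nat.cast_sub (by omega), Nat.cast_one] at h5
        exact h5
      have h7 : (0 : ℝ) < (img δ e).ncard * ((img δ e).ncard - 1) := by nlinarith
      refine le_of_mul_le_mul_right (a := (img δ e).ncard * ((img δ e).ncard - 1 : ℝ)) ?_ h7
      refine (h4.trans h2).trans (le_of_eq ?_)
      ring)
  refine ⟨u, hu, hlen.trans (le_of_eq ?_)⟩
  rw [Nat.cast_sub hn, Nat.cast_one]
  ring

end Pool.Agent.Rad2
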