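import Pool.Agent.Rad2.Words

/-!
# Minimal idempotents: sections of the representation
-/

set_option autoImplicit false

namespace Pool.Agent.Rad2

open Pool.Agent.Rad (run IsReset IsRadical run_append act act_mk act_append mu mu_le mu_pos
  mem_comp_of_mu comp isRadical_iff fwd)
open Module

variable {Q A K : Type*} [Field K]

/-- The basis vector of the state `p`. -/
noncomputable def bv (K : Type*) [Field K] [Finite Q] (p : Q) : Q → K := Pi.basisFun K Q p

theorem lin_bv [Finite Q] (δ : Q → A → Q) (w : List A) (p : Q) :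
    lin K δ w (bv K p) = bv K (run δ p w) := by
  unfold lin bv
  rw [Basis.constr_basis]

theorem hom_ext [Finite Q] {W : Type*} [AddCommGroup W] [Module K W] {f g : (Q → K) →ₗ[K] W}
    (h : ∀ p, f (bv K p) = g (bv K p)) : f = g := (Pi.basisFun K Q).ext h

theorem lin_append [Finite Q] (δ : Q → A → Q) (u w : List A) :
    lin K δ (u ++ w) = lin K δ w ∘ₗ lin K δ u := by
  refine hom_ext fun p => ?_
  rw [LinearMap.comp_apply, lin_bv, lin_bv, lin_bv, run_append]

theorem lin_append_apply [Finite Q] (δ : Q → A → Q) (u w : List A) (x : Q → K) :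
    lin K δ (u ++ w) x = lin K δ w (lin K δ u x) := by
  rw [lin_append, LinearMap.comp_apply]

theorem lin_nil [Finite Q] (δ : Q → A → Q) : lin K δ [] = LinearMap.id := by
  refine hom_ext fun p => ?_
  rw [lin_bv]
  rfl

theorem lin_congr [Finite Q] {δ : Q → A → Q} {u w : List A}
    (h : ∀ p, run δ p u = run δ p w) : lin K δ u = lin K δ w := by
  refine hom_ext fun p => ?_
  rw [lin_bv, lin_bv, h]

theorem bv_inj [Finite Q] {p q : Q} (h : bv K p = bv K q) : p = q :=
  (Pi.basisFun K Q).injective h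

theorem sum_bv [Fintype Q] (p : Q) : ∑ q, bv K p q = 1 := by
  classical
  unfold bv
  rw [Pi.basisFun_apply]
  simp

theorem mem_V [Fintype Q] {x : Q → K} : x ∈ V K Q ↔ ∑ q, x q = 0 := by
  unfold V
  rw [LinearMap.mem_ker, LinearMap.sum_apply]
  rfl

theorem diff_mem_V [Fintype Q] (p q : Q) : bv K p - bv K q ∈ V K Q := by
  rw [mem_V]
  simp only [Pi.sub_apply, Finset.sum_sub_distrib]
  rw [sum_bv, sum_bv, sub_self]

theorem lin_diff [Finite Q] (δ : Q → A → Q) (w : List A) (p q : Q) :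
    lin K δ w (bv K p - bv K q) = bv K (run δ p w) - bv K (run δ q w) := by
  rw [map_sub, lin_bv, lin_bv]

theorem V_le_span [Fintype Q] :
    V K Q ≤ Submodule.span K (Set.range fun z : Q × Q => (bv K z.1 - bv K z.2 : Q → K)) := by
  classical
  intro x hx
  rcases isEmpty_or_nonempty Q with hQ | ⟨⟨q⟩⟩
  · have : x = 0 := Subsingleton.elim _ _
    rw [this]
    exact Submodule.zero_mem _
  have h1 : ∑ p, x p = 0 := mem_V.1 hx
  have h2 : x = ∑ p, x p • (bv K p - bv K q) := by
    have h3 : ∑ p, x p • (bv K p - bv K q) = (∑ p, x p • bv K p) - (∑ p, x p) • bv K q := by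
      rw [Finset.sum_smul, ← Finset.sum_sub_distrib]
      exact Finset.sum_congr rfl fun p _ => smul_sub _ _ _
    rw [h3, h1, zero_smul, sub_zero]
    unfold bv
    exact ((Pi.basisFun K Q).sum_repr x).symm
  rw [h2]
  exact Submodule.sum_mem _ fun p _ => Submodule.smul_mem _ _ (Submodule.subset_span ⟨(p, q), rfl⟩)

theorem finrank_V [Fintype Q] [Nonempty Q] : finrank K (V K Q) = Fintype.card Q - 1 := by
  classical
  have h1 := LinearMap.finrank_range_add_finrank_ker (∑ q, LinearMap.proj q : (Q → K) →ₗ[K] K)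
  have h2 : LinearMap.range (∑ q, LinearMap.proj q : (Q → K) →ₗ[K] K) = ⊤ := by
    rw [eq_top_iff]
    intro c _
    obtain ⟨q⟩ := ‹Nonempty Q›
    refine ⟨c • bv K q, ?_⟩
    rw [LinearMap.sum_apply]
    simp only [LinearMap.proj_apply, Pi.smul_apply, smul_eq_mul]
    rw [← Finset.mul_sum, sum_bv, mul_one]
  rw [h2, finrank_top, finrank_self, finrank_fintype_fun_eq_card] at h1
  unfold V
  omega

theorem finrank_V_le [Fintype Q] : finrank K (V K Q) ≤ Fintype.card Q - 1 := by
  rcases isEmpty_or_nonempty Q with hQ | hQ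
  · have h1 := Submodule.finrank_le (V K Q)
    rw [finrank_fintype_fun_eq_card, Fintype.card_eq_zero] at h1
    omega
  · exact finrank_V.le

theorem Inv.mem [Finite Q] {δ : Q → A → Q} {U : Submodule K (Q → K)} (hU : Inv δ U)
    (w : List A) : ∀ x ∈ U, lin K δ w x ∈ U := by
  induction w with
  | nil => intro x hx; rw [lin_nil]; exact hx
  | cons a w ih =>
    intro x hx
    rw [show a :: w = [a] ++ w from rfl, lin_append_apply]
    exact ih _ (hU a x hx)

/-! ### The filtration by the number of reachable pairs -/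

/-- The span of the differences over the pairs of level at most `t`. -/
noncomputable def LK (K : Type*) [Field K] [Finite Q] (δ : Q → A → Q) (t : ℕ) :
    Submodule K (Q → K) :=
  Submodule.span K {x | ∃ p q, p ≠ q ∧ mu δ s(p, q) ≤ t ∧ x = bv K p - bv K q}

theorem LK_mono [Finite Q] (δ : Q → A → Q) {s t : ℕ} (h : s ≤ t) : LK K δ s ≤ LK K δ t := by
  apply Submodule.span_mono
  rintro x ⟨p, q, h1, h2, rfl⟩
  exact ⟨p, q, h1, h2.trans h, rfl⟩

theorem LK_zero [Finite Q] (δ : Q → A → Q) : LK K δ 0 = ⊥ := by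
  unfold LK
  rw [Submodule.span_eq_bot]
  rintro x ⟨p, q, h1, h2, rfl⟩
  have := mu_pos (δ := δ) (z := s(p, q)) (by rw [Sym2.mk_isDiag_iff]; exact h1)
  omega

theorem LK_inv [Finite Q] (δ : Q → A → Q) (t : ℕ) : Inv δ (LK K δ t) := by
  intro a x hx
  have h1 : (LK K δ t).map (lin K δ [a]) ≤ LK K δ t := by
    conv_lhs => unfold LK
    rw [Submodule.map_span, Submodule.span_le]
    rintro _ ⟨_, ⟨p, q, h1, h2, rfl⟩, rfl⟩
    rw [lin_diff]
    by_cases h : run δ p [a] = run δ q [a]
    · rw [h, sub_self]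
      exact Submodule.zero_mem _
    · exact Submodule.subset_span ⟨_, _, h, (mu_le (δ := δ) (z := s(p, q)) [a]).trans h2, rfl⟩
  exact h1 (Submodule.mem_map_of_mem hx)

theorem V_le_LK [Fintype Q] (δ : Q → A → Q) :
    V K Q ≤ LK K δ (Set.univ : Set (Sym2 Q)).ncard := by
  refine V_le_span.trans ?_
  rw [Submodule.span_le]
  rintro _ ⟨z, rfl⟩
  by_cases h : z.1 = z.2
  · simp only [h, sub_self]
    exact Submodule.zero_mem _
  · exact Submodule.subset_span ⟨_, _, h,
      Set.ncard_le_ncard (Set.subset_univ _) (Set.toFinite _), rfl⟩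

theorem LK_le_V [Fintype Q] (δ : Q → A → Q) (t : ℕ) : LK K δ t ≤ V K Q := by
  unfold LK
  rw [Submodule.span_le]
  rintro x ⟨p, q, _, _, rfl⟩
  exact diff_mem_V p q

/-- A word which maps a pair into its component is not radical. -/
theorem mu_lt_of_radical [Fintype Q] {δ : Q → A → Q} {g : List A} (hg : IsRadical δ g) {p q : Q}
    (hne : p ≠ q) : mu δ s(run δ p g, run δ q g) < mu δ s(p, q) := by
  by_contra hcon
  push Not at hcon
  have h1 : act δ g s(p, q) ∈ comp δ s(p, q) :=
    mem_comp_of_mu g (by rw [Sym2.mk_isDiag_iff]; exact hne) hcon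
  obtain ⟨w, hw⟩ := h1.2
  rw [← act_append, act_mk, Sym2.eq_iff] at hw
  rw [isRadical_iff] at hg
  apply hne
  rcases hw with ⟨h2, h3⟩ | ⟨h2, h3⟩
  · exact hg w p q h2 h3
  · refine hg (w ++ g ++ w) p q ?_ ?_
    · simp only [run_append] at h2 h3 ⊢
      rw [h2, h3]
    · simp only [run_append] at h2 h3 ⊢
      rw [h3, h2]

theorem radical_LK [Fintype Q] {δ : Q → A → Q} {g : List A} (hg : IsRadical δ g) (t : ℕ) :
    ∀ x ∈ LK K δ (t + 1), lin K δ g x ∈ LK K δ t := by
  intro x hx
  have h1 : (LK K δ (t + 1)).map (lin K δ g) ≤ LK K δ t := by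
    conv_lhs => unfold LK
    rw [Submodule.map_span, Submodule.span_le]
    rintro _ ⟨_, ⟨p, q, h1, h2, rfl⟩, rfl⟩
    rw [lin_diff]
    by_cases h : run δ p g = run δ q g
    · rw [h, sub_self]
      exact Submodule.zero_mem _
    · refine Submodule.subset_span ⟨_, _, h, ?_, rfl⟩
      have := mu_lt_of_radical hg h1
      omega
  exact h1 (Submodule.mem_map_of_mem hx)

/-- The section `U' / U` is killed by the word `g`. -/
def Kills [Finite Q] (δ : Q → A → Q) (U U' : Submodule K (Q → K)) (g : List A) : Prop :=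
  ∀ x ∈ U', lin K δ g x ∈ U

/-- No invariant subspace lies strictly between. -/
def Simple [Finite Q] (δ : Q → A → Q) (U U' : Submodule K (Q → K)) : Prop :=
  ∀ Y, Inv δ Y → U ≤ Y → Y ≤ U' → Y = U ∨ Y = U'

theorem kills_LK [Fintype Q] {δ : Q → A → Q} {g : List A} (hg : IsRadical δ g) (t : ℕ) :
    Kills (K := K) δ (LK K δ t) (LK K δ (t + 1)) g := radical_LK hg t

theorem kills_of_simple [Fintype Q] {δ : Q → A → Q} {U U' : Submodule K (Q → K)}
    (hU : Inv δ U) (hU' : Inv δ U') (hle : U ≤ U') (hV : U' ≤ V K Q) (hsimp : Simple δ U U')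
    {g : List A} (hg : IsRadical δ g) : Kills δ U U' g := by
  classical
  by_cases heq : U' ≤ U
  · intro x hx
    exact hU.mem g x (heq hx)
  have hex : ∃ t, ¬ U' ⊓ LK K δ t ≤ U := by
    refine ⟨(Set.univ : Set (Sym2 Q)).ncard, ?_⟩
    rw [inf_eq_left.2 (hV.trans (V_le_LK δ))]
    exact heq
  obtain ⟨t, ht⟩ : ∃ t, Nat.find hex = t + 1 := by
    refine Nat.exists_eq_succ_of_ne_zero fun h0 => ?_
    have h1 := Nat.find_spec hex
    rw [h0, LK_zero, inf_bot_eq] at h1
    exact h1 bot_le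
  have h1 : ¬ U' ⊓ LK K δ (t + 1) ≤ U := by
    have := Nat.find_spec hex
    rwa [ht] at this
  have h2 : U' ⊓ LK K δ t ≤ U := by
    by_contra h
    have := Nat.find_min' hex h
    omega
  have hinv : Inv δ (U ⊔ (U' ⊓ LK K δ (t + 1))) := by
    intro a x hx
    obtain ⟨u, hu, v, hv, rfl⟩ := Submodule.mem_sup.1 hx
    rw [map_add]
    exact Submodule.add_mem_sup (hU a u hu) ⟨hU' a v hv.1, LK_inv δ (t + 1) a v hv.2⟩
  have h3 : U ⊔ (U' ⊓ LK K δ (t + 1)) = U' := by
    rcases hsimp _ hinv le_sup_left (sup_le hle inf_le_left) with h | h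
    · exact absurd (le_sup_right.trans h.le) h1
    · exact h
  intro x hx
  rw [← h3] at hx
  obtain ⟨u, hu, v, hv, rfl⟩ := Submodule.mem_sup.1 hx
  rw [map_add]
  refine Submodule.add_mem _ (hU.mem g u hu) (h2 ⟨hU'.mem g v hv.1, radical_LK hg t v hv.2⟩)

/-! ### Ranks -/

theorem rank_congr [Finite Q] {δ : Q → A → Q} (U U' : Submodule K (Q → K)) {u w : List A}
    (h : ∀ p, run δ p u = run δ p w) : rank δ U U' u = rank δ U U' w := by
  unfold rank
  rw [lin_congr h]

theorem map_append [Finite Q] {δ : Q → A → Q} {U : Submodule K (Q → K)} (hU : Inv δ U)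
    (U' : Submodule K (Q → K)) (u w : List A) : U'.map (U.mkQ ∘ₗ lin K δ (u ++ w)) =
      (U'.map (U.mkQ ∘ₗ lin K δ u)).map (U.mapQ U (lin K δ w) (hU.mem w)) := by
  rw [← Submodule.map_comp, lin_append, ← LinearMap.comp_assoc, ← LinearMap.comp_assoc,
    Submodule.mapQ_mkQ]

theorem rank_append_le [Finite Q] {δ : Q → A → Q} {U : Submodule K (Q → K)} (hU : Inv δ U)
    (U' : Submodule K (Q → K)) (u w : List A) : rank δ U U' (u ++ w) ≤ rank δ U U' u := by
  unfold rank
  rw [map_append hU]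
  exact Submodule.finrank_map_le _ _

theorem map_prefix_le [Finite Q] {δ : Q → A → Q} (U : Submodule K (Q → K))
    {U' : Submodule K (Q → K)} (hU' : Inv δ U') (u w : List A) :
    U'.map (U.mkQ ∘ₗ lin K δ (u ++ w)) ≤ U'.map (U.mkQ ∘ₗ lin K δ w) := by
  rintro _ ⟨x, hx, rfl⟩
  refine ⟨lin K δ u x, hU'.mem u x hx, ?_⟩
  rw [LinearMap.comp_apply, LinearMap.comp_apply, lin_append_apply]

theorem rank_append_le' [Finite Q] {δ : Q → A → Q} (U : Submodule K (Q → K))
    {U' : Submodule K (Q → K)} (hU' : Inv δ U') (u w : List A) :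
    rank δ U U' (u ++ w) ≤ rank δ U U' w :=
  Submodule.finrank_mono (map_prefix_le U hU' u w)

theorem rank_div [Finite Q] {δ : Q → A → Q} {U U' : Submodule K (Q → K)} (hU : Inv δ U)
    (hU' : Inv δ U') {x e : List A} (h : Divides δ x e) : rank δ U U' e ≤ rank δ U U' x := by
  obtain ⟨a, b, hab⟩ := h
  rw [← rank_congr U U' hab]
  exact (rank_append_le hU U' _ _).trans (rank_append_le' U hU' _ _)

theorem rank_nil [Finite Q] (δ : Q → A → Q) {U U' : Submodule K (Q → K)} (h : U ≤ U') :
    rank δ U U' [] + finrank K U = finrank K U' := by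
  unfold rank
  rw [lin_nil, LinearMap.comp_id]
  have h3 := LinearMap.finrank_range_add_finrank_ker (U.mkQ.domRestrict U')
  have h4 : LinearMap.range (U.mkQ.domRestrict U') = U'.map U.mkQ :=
    LinearMap.range_domRestrict _ _
  have h5 : LinearMap.ker (U.mkQ.domRestrict U') = U.submoduleOf U' := by
    ext x
    rw [LinearMap.mem_ker]
    exact Submodule.Quotient.mk_eq_zero _
  rw [h4, h5, (Submodule.submoduleOfEquivOfLe h).finrank_eq] at h3
  exact h3

theorem finrank_map_add {M N : Type*} [AddCommGroup M] [Module K M] [AddCommGroup N] [Module K N]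
    [FiniteDimensional K M] (g : M →ₗ[K] N) {S S' : Submodule K M} (h1 : S' ≤ S)
    (h2 : S' ≤ LinearMap.ker g) : finrank K S' + finrank K (S.map g) ≤ finrank K S := by
  have h3 := LinearMap.finrank_range_add_finrank_ker (g.domRestrict S)
  rw [LinearMap.range_domRestrict] at h3
  have h4 : finrank K S' ≤ finrank K (LinearMap.ker (g.domRestrict S)) := by
    rw [← (Submodule.submoduleOfEquivOfLe h1).finrank_eq]
    apply Submodule.finrank_mono
    intro x hx
    exact h2 hx
  omega

/-- The drop of the rank. -/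
theorem rank_drop [Finite Q] {δ : Q → A → Q} {U U' : Submodule K (Q → K)} (hU : Inv δ U)
    (hU' : Inv δ U') {x y f z : List A} (hf : ∀ p, run δ p (x ++ y) = run δ p f)
    (hidem : ∀ p, run δ p (f ++ f) = run δ p f) (hk : Kills δ U U' (f ++ x ++ z)) :
    rank δ U U' f + rank δ U U' (x ++ z) ≤ rank δ U U' x := by
  have h1 : rank δ U U' f ≤ rank δ U U' (f ++ x) := by
    rw [← rank_congr (u := (f ++ x) ++ y) (w := f)]
    · exact rank_append_le hU U' _ _
    · intro p
      rw [List.append_assoc, run_append, hf, ← run_append, hidem]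
  refine (Nat.add_le_add_right h1 _).trans ?_
  unfold rank
  rw [map_append hU U' x z]
  apply finrank_map_add
  · exact map_prefix_le U hU' f x
  · rintro _ ⟨v, hv, rfl⟩
    rw [LinearMap.mem_ker, LinearMap.comp_apply, Submodule.mkQ_apply, Submodule.mapQ_apply,
      Submodule.Quotient.mk_eq_zero, ← lin_append_apply]
    exact hk v hv

/-- Subadditivity of the rank of an idempotent. -/
theorem rank_sub [Finite Q] {δ : Q → A → Q} {U Y U' : Submodule K (Q → K)} (h1 : U ≤ Y)
    {e : List A} (hidem : ∀ p, run δ p (e ++ e) = run δ p e) :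
    rank δ U U' e ≤ rank δ U Y e + rank δ Y U' e := by
  unfold rank
  set g : ((Q → K) ⧸ U) →ₗ[K] ((Q → K) ⧸ Y) := Submodule.factor h1 with hg
  have h3 := LinearMap.finrank_range_add_finrank_ker
    (g.domRestrict (U'.map (U.mkQ ∘ₗ lin K δ e)))
  rw [LinearMap.range_domRestrict] at h3
  have h4 : (U'.map (U.mkQ ∘ₗ lin K δ e)).map g = U'.map (Y.mkQ ∘ₗ lin K δ e) := by
    rw [← Submodule.map_comp, ← LinearMap.comp_assoc, hg, Submodule.factor_comp_mk]
  have h5 : finrank K (LinearMap.ker (g.domRestrict (U'.map (U.mkQ ∘ₗ lin K δ e)))) ≤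
      finrank K (Y.map (U.mkQ ∘ₗ lin K δ e)) := by
    have h6 : (LinearMap.ker (g.domRestrict (U'.map (U.mkQ ∘ₗ lin K δ e)))).map
        (U'.map (U.mkQ ∘ₗ lin K δ e)).subtype ≤ Y.map (U.mkQ ∘ₗ lin K δ e) := by
      rintro _ ⟨⟨_, ⟨v, hv, rfl⟩⟩, hx, rfl⟩
      have h7 : g (U.mkQ (lin K δ e v)) = 0 := hx
      rw [hg, Submodule.factor_mk, Submodule.mkQ_apply, Submodule.Quotient.mk_eq_zero] at h7
      refine ⟨lin K δ e v, h7, ?_⟩
      rw [LinearMap.comp_apply, ← lin_append_apply, lin_congr hidem]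
      rfl
    have h8 := Submodule.finrank_mono h6
    rw [Submodule.finrank_map_subtype_eq] at h8
    exact h8
  rw [h4] at h3
  omega

end Pool.Agent.Rad2
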