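import Pool.Agent.Rad.Comp
import Pool.Agent.Rad2.Defs

/-!
# Minimal idempotents: words
-/

set_option autoImplicit false

namespace Pool.Agent.Rad2

open Pool.Agent.Rad

variable {Q A : Type*}

theorem Divides.refl (δ : Q → A → Q) (x : List A) : Divides δ x x :=
  ⟨[], [], fun p => by rw [List.nil_append, List.append_nil]⟩

theorem Divides.trans {δ : Q → A → Q} {x y z : List A} (h : Divides δ x y) (h' : Divides δ y z) :
    Divides δ x z := by
  obtain ⟨a, b, hab⟩ := h
  obtain ⟨c, d, hcd⟩ := h'
  refine ⟨c ++ a, b ++ d, fun p => ?_⟩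
  rw [← hcd p]
  simp only [run_append] at hab ⊢
  rw [hab]

theorem Divides.left {δ : Q → A → Q} {x y e : List A} (h : Divides δ (x ++ y) e) :
    Divides δ x e := by
  obtain ⟨a, b, hab⟩ := h
  refine ⟨a, y ++ b, fun p => ?_⟩
  rw [← hab p]
  simp only [run_append]

theorem Divides.right {δ : Q → A → Q} {x y e : List A} (h : Divides δ (x ++ y) e) :
    Divides δ y e := by
  obtain ⟨a, b, hab⟩ := h
  refine ⟨a ++ x, b, fun p => ?_⟩
  rw [← hab p]
  simp only [run_append]

theorem Divides.congr {δ : Q → A → Q} {x x' e : List A} (h : Divides δ x e)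
    (hx : ∀ p, run δ p x = run δ p x') : Divides δ x' e := by
  obtain ⟨a, b, hab⟩ := h
  refine ⟨a, b, fun p => ?_⟩
  rw [← hab p]
  simp only [run_append, hx]

theorem Divides.congr' {δ : Q → A → Q} {x e e' : List A} (h : Divides δ x e)
    (he : ∀ p, run δ p e = run δ p e') : Divides δ x e' := by
  obtain ⟨a, b, hab⟩ := h
  exact ⟨a, b, fun p => by rw [hab, he]⟩

theorem img_append (δ : Q → A → Q) (u w : List A) :
    img δ (u ++ w) = (fun p => run δ p w) '' img δ u := by
  ext q
  constructor
  · rintro ⟨p, rfl⟩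
    exact ⟨run δ p u, ⟨p, rfl⟩, (run_append δ p u w).symm⟩
  · rintro ⟨_, ⟨p, rfl⟩, rfl⟩
    exact ⟨p, run_append δ p u w⟩

theorem img_append_subset (δ : Q → A → Q) (u w : List A) : img δ (u ++ w) ⊆ img δ w := by
  rintro _ ⟨p, rfl⟩
  exact ⟨run δ p u, (run_append δ p u w).symm⟩

theorem img_congr {δ : Q → A → Q} {u w : List A} (h : ∀ p, run δ p u = run δ p w) :
    img δ u = img δ w := by
  unfold img
  rw [funext h]

theorem ncard_append_le [Finite Q] (δ : Q → A → Q) (u w : List A) :
    (img δ (u ++ w)).ncard ≤ (img δ u).ncard := by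
  rw [img_append]
  exact Set.ncard_image_le (Set.toFinite _)

theorem ncard_append_le' [Finite Q] (δ : Q → A → Q) (u w : List A) :
    (img δ (u ++ w)).ncard ≤ (img δ w).ncard :=
  Set.ncard_le_ncard (img_append_subset δ u w) (Set.toFinite _)

theorem Divides.ncard_le [Finite Q] {δ : Q → A → Q} {x e : List A} (h : Divides δ x e) :
    (img δ e).ncard ≤ (img δ x).ncard := by
  obtain ⟨a, b, hab⟩ := h
  rw [← img_congr hab]
  exact (ncard_append_le δ _ _).trans (ncard_append_le' δ _ _)

/-- The powers of a word. -/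
def pw (w : List A) : ℕ → List A
  | 0 => []
  | k + 1 => w ++ pw w k

theorem run_pw (δ : Q → A → Q) (w : List A) (k : ℕ) (p : Q) :
    run δ p (pw w k) = (fun q => run δ q w)^[k] p := by
  induction k generalizing p with
  | zero => rfl
  | succ k ih =>
    rw [Function.iterate_succ_apply, ← ih]
    exact run_append δ p w _

/-- A power of a map of a finite set is idempotent. -/
theorem exists_idem [Finite Q] (f : Q → Q) : ∃ k, 1 ≤ k ∧ ∀ x, f^[k] (f^[k] x) = f^[k] x := by
  obtain ⟨i, j, hij, h⟩ := Finite.exists_ne_map_eq_of_infinite fun k : ℕ => f^[k]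
  wlog hlt : i < j generalizing i j
  · exact this j i hij.symm h.symm (by omega)
  have h1 : ∀ m, i ≤ m → f^[m + (j - i)] = f^[m] := by
    intro m hm
    have e1 : m + (j - i) = (m - i) + j := by omega
    have e2 : m = (m - i) + i := by omega
    rw [e1, Function.iterate_add, ← h, ← Function.iterate_add, ← e2]
  have h2 : ∀ c m, i ≤ m → f^[m + c * (j - i)] = f^[m] := by
    intro c
    induction c with
    | zero => intro m _; rw [zero_mul, add_zero]
    | succ c ih =>
      intro m hm
      rw [add_mul, one_mul, ← add_assoc, h1 _ (by omega), ih m hm]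
  have h3 : i + 1 ≤ (i + 1) * (j - i) := Nat.le_mul_of_pos_right _ (by omega)
  refine ⟨(i + 1) * (j - i), by omega, fun x => ?_⟩
  rw [← Function.iterate_add_apply, h2 (i + 1) _ (by omega)]

/-- If `L` is contained in `L.w` then `w` can be undone on `L`. -/
theorem exists_return [Finite Q] {δ : Q → A → Q} {w : List A} {L : Set Q}
    (h : L ⊆ (fun p => run δ p w) '' L) : Undo δ L w := by
  have hcard : ((fun p => run δ p w) '' L).ncard = L.ncard :=
    le_antisymm (Set.ncard_image_le (Set.toFinite _)) (Set.ncard_le_ncard h (Set.toFinite _))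
  have hinj : Set.InjOn (fun p => run δ p w) L := Set.injOn_of_ncard_image_eq hcard (Set.toFinite _)
  have himg : L = (fun p => run δ p w) '' L :=
    Set.eq_of_subset_of_ncard_le h hcard.le (Set.toFinite _)
  have hmaps : Set.MapsTo (fun p => run δ p w) L L := by
    intro x hx
    rw [himg]
    exact ⟨x, hx, rfl⟩
  obtain ⟨k, hk, hidem⟩ := exists_idem fun p => run δ p w
  refine ⟨pw w (k - 1), fun x hx => ?_⟩
  have h1 : w ++ pw w (k - 1) = pw w k := by
    conv_rhs => rw [show k = (k - 1) + 1 by omega]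
    rfl
  rw [h1, run_pw]
  exact (hinj.iterate hmaps k) (hmaps.iterate k hx) hx (hidem x)

/-- The two-sided form of the criterion for radical words. -/
theorem radical_fix [Fintype Q] {δ : Q → A → Q} {g : List A} (hg : IsRadical δ g)
    (c c' : List A) : ¬ FixTwo δ (c ++ g ++ c') := by
  rintro ⟨p, q, hne, hp, hq⟩
  rw [isRadical_iff] at hg
  simp only [run_append] at hp hq
  have h1 := hg (c' ++ c) (run δ p c) (run δ q c) (by simp only [run_append]; rw [hp])
    (by simp only [run_append]; rw [hq])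
  apply hne
  rw [← hp, ← hq, h1]

theorem exists_fix [Fintype Q] {δ : Q → A → Q} {x : List A} (hx : ¬ IsRadical δ x) :
    ∃ w, FixTwo δ (x ++ w) := by
  rw [isRadical_iff] at hx
  push Not at hx
  obtain ⟨w, p, q, hp, hq, hne⟩ := hx
  exact ⟨w, p, q, hne, hp, hq⟩

theorem radical_congr [Fintype Q] {δ : Q → A → Q} {g g' : List A} (hg : IsRadical δ g)
    (h : ∀ p, run δ p g = run δ p g') : IsRadical δ g' := by
  rw [isRadical_iff] at hg ⊢
  intro w p q hp hq
  rw [run_append, ← h] at hp hq
  exact hg w p q (by rw [run_append]; exact hp) (by rw [run_append]; exact hq)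

theorem FixTwo.iterate {δ : Q → A → Q} {w : List A} {p : Q} (h : run δ p w = p) (k : ℕ) :
    run δ p (pw w k) = p := by
  rw [run_pw]
  exact Function.iterate_fixed h k

theorem FixTwo.two_le [Finite Q] {δ : Q → A → Q} {w : List A} (h : FixTwo δ w) :
    2 ≤ (img δ w).ncard := by
  obtain ⟨p, q, hne, hp, hq⟩ := h
  rw [← Set.ncard_pair hne]
  refine Set.ncard_le_ncard ?_ (Set.toFinite _)
  rintro r (rfl | rfl)
  · exact ⟨_, hp⟩
  · exact ⟨_, hq⟩

theorem two_of_ncard {δ : Q → A → Q} {w : List A} (h : 2 ≤ (img δ w).ncard) :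
    ∃ p q, run δ p w ≠ run δ q w := by
  obtain ⟨a, ha, b, hb, hab⟩ := (Set.one_lt_ncard (Set.finite_of_ncard_pos (by omega))).1 h
  obtain ⟨p, rfl⟩ := ha
  obtain ⟨q, rfl⟩ := hb
  exact ⟨p, q, hab⟩

theorem MinIdem.two_le [Finite Q] {δ : Q → A → Q} {e : List A} (h : MinIdem δ e) :
    2 ≤ (img δ e).ncard := by
  obtain ⟨p, q, hne⟩ := h.two
  rw [← Set.ncard_pair hne]
  refine Set.ncard_le_ncard ?_ (Set.toFinite _)
  rintro r (rfl | rfl)
  · exact ⟨_, rfl⟩
  · exact ⟨_, rfl⟩

theorem MinIdem.fix {δ : Q → A → Q} {e : List A} (h : MinIdem δ e) {p : Q} (hp : p ∈ img δ e) :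
    run δ p e = p := by
  obtain ⟨q, rfl⟩ := hp
  have := h.idem q
  rw [run_append] at this
  exact this

/-- Every word which is not radical divides a minimal idempotent, and has it as a right multiple. -/
theorem exists_minIdem [Fintype Q] {δ : Q → A → Q} {x : List A} (hx : ¬ IsRadical δ x) :
    ∃ e, MinIdem δ e ∧ Divides δ x e := by
  classical
  have hex : ∃ s, ∃ c c' : List A, FixTwo δ (c ++ x ++ c') ∧ (img δ (c ++ x ++ c')).ncard = s := by
    obtain ⟨w, hw⟩ := exists_fix hx
    exact ⟨_, [], w, hw, rfl⟩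
  obtain ⟨c, c', hfix, hs⟩ := Nat.find_spec hex
  have hmin : ∀ d d' : List A, FixTwo δ (d ++ x ++ d') →
      Nat.find hex ≤ (img δ (d ++ x ++ d')).ncard := fun d d' h =>
    Nat.find_min' hex ⟨d, d', h, rfl⟩
  set s := Nat.find hex with hsdef
  -- an idempotent power `c x y`
  obtain ⟨k, hk, hidem⟩ := exists_idem fun p => run δ p (c ++ x ++ c')
  set y := c' ++ pw (c ++ x ++ c') (k - 1) with hy
  have hy1 : c ++ x ++ y = pw (c ++ x ++ c') k := by
    have h1 : k = (k - 1) + 1 := by omega
    conv_rhs => rw [h1]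
    rw [hy]
    show c ++ x ++ (c' ++ pw (c ++ x ++ c') (k - 1)) = (c ++ x ++ c') ++ pw (c ++ x ++ c') (k - 1)
    simp only [List.append_assoc]
  have he0 : ∀ p, run δ (run δ p (c ++ x ++ y)) (c ++ x ++ y) = run δ p (c ++ x ++ y) := by
    intro p
    rw [hy1, run_pw, run_pw]
    exact hidem p
  have hfix0 : FixTwo δ (c ++ x ++ y) := by
    obtain ⟨p, q, hne, hp, hq⟩ := hfix
    rw [hy1]
    exact ⟨p, q, hne, FixTwo.iterate hp k, FixTwo.iterate hq k⟩
  have hrank0 : (img δ (c ++ x ++ y)).ncard = s := by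
    apply le_antisymm _ (hmin c y hfix0)
    rw [← hs, hy, show c ++ x ++ (c' ++ pw (c ++ x ++ c') (k - 1)) =
      (c ++ x ++ c') ++ pw (c ++ x ++ c') (k - 1) by simp only [List.append_assoc]]
    exact ncard_append_le δ _ _
  simp only [run_append] at he0
  -- the idempotent `x y (c x y) c`
  set e := x ++ y ++ (c ++ x ++ y) ++ c with he
  have hrun : ∀ p, run δ p e =
      run δ (run δ (run δ (run δ (run δ (run δ p x) y) c) x) y) c := by
    intro p
    rw [he]
    simp only [run_append]
  have hidem_e : ∀ p, run δ p (e ++ e) = run δ p e := by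
    intro p
    rw [run_append, hrun, hrun]
    rw [he0, he0]
  have hd1 : Divides δ e (c ++ x ++ y) := by
    refine ⟨c, x ++ y, fun p => ?_⟩
    simp only [run_append, hrun]
    rw [he0, he0]
  have hd2 : Divides δ (c ++ x ++ y) e := ⟨x ++ y, c, fun p => by rw [he]⟩
  have hrank : (img δ e).ncard = s := by
    rw [← hrank0]
    exact le_antisymm hd2.ncard_le hd1.ncard_le
  have hs2 : 2 ≤ s := by
    rw [← hrank0]
    exact hfix0.two_le
  refine ⟨e, ⟨hidem_e, two_of_ncard (by omega), ?_⟩, ?_⟩
  · intro c1 c2 hk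
    -- `w = c2 k c1 e` maps the image of `e` onto itself
    set w := c2 ++ (c1 ++ e ++ c2) ++ c1 ++ e with hw
    have hfixe : ∀ q ∈ img δ e, run δ q e = q := by
      rintro _ ⟨p, rfl⟩
      have := hidem_e p
      rw [run_append] at this
      exact this
    have hsub : (fun p => run δ p w) '' img δ e ⊆ img δ e := by
      rw [← img_append, hw, ← List.append_assoc]
      exact img_append_subset δ _ _
    have hcube : FixTwo δ (c1 ++ (e ++ w) ++ c2) := by
      obtain ⟨p, q, hne, hp, hq⟩ := hk
      have key : ∀ r, run δ r (c1 ++ e ++ c2) = r → run δ r (c1 ++ (e ++ w) ++ c2) = r := by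
        intro r hr
        rw [hw]
        simp only [run_append] at hr ⊢
        rw [hr, hr, hr]
      exact ⟨p, q, hne, key p hp, key q hq⟩
    have hge : s ≤ (img δ (c1 ++ (e ++ w) ++ c2)).ncard := by
      have h1 : c1 ++ (e ++ w) ++ c2 = c1 ++ x ++ (y ++ (c ++ x ++ y) ++ c ++ w ++ c2) := by
        rw [he]
        simp only [List.append_assoc]
      rw [h1]
      apply hmin
      rw [← h1]
      exact hcube
    have hge2 : (img δ e).ncard ≤ ((fun p => run δ p w) '' img δ e).ncard := by
      rw [hrank, ← img_append]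
      exact hge.trans ((ncard_append_le δ _ _).trans (ncard_append_le' δ _ _))
    have himg : (fun p => run δ p w) '' img δ e = img δ e :=
      Set.eq_of_subset_of_ncard_le hsub hge2 (Set.toFinite _)
    obtain ⟨v, hv⟩ := exists_return himg.symm.le
    refine ⟨e ++ c2, c1 ++ e ++ v, fun p => ?_⟩
    have h1 := hv (run δ p e) ⟨p, rfl⟩
    rw [hw] at h1
    simp only [run_append] at h1 ⊢
    exact h1
  · refine ⟨[], y ++ (c ++ x ++ y) ++ c, fun p => ?_⟩
    rw [he]
    simp only [run_append, List.nil_append]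

/-- A proper multiple of a minimal idempotent is radical. -/
theorem radical_of_not_div [Fintype Q] {δ : Q → A → Q} {e g : List A} (he : MinIdem δ e)
    (h1 : Divides δ e g) (h2 : ¬ Divides δ g e) : IsRadical δ g := by
  by_contra hg
  obtain ⟨w, p, q, hne, hp, hq⟩ := exists_fix hg
  obtain ⟨a, b, hab⟩ := h1
  have h3 : FixTwo δ (a ++ e ++ (b ++ w)) := by
    refine ⟨p, q, hne, ?_, ?_⟩
    · rw [← List.append_assoc, run_append, hab, ← run_append, hp]
    · rw [← List.append_assoc, run_append, hab, ← run_append, hq]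
  have h4 := he.min _ _ h3
  apply h2
  have h5 : Divides δ (a ++ e ++ b ++ w) e := by
    rw [List.append_assoc (a ++ e)]
    exact h4
  exact h5.left.congr hab

/-- Local inverses. -/
theorem exists_section [Finite Q] {δ : Q → A → Q} {e g : List A} (he : MinIdem δ e)
    (h1 : Divides δ e g) (h2 : Divides δ g e) :
    ∃ y : List A, ∀ x ∈ img δ g, run δ x (y ++ g) = x := by
  have hc : (img δ e).ncard = (img δ g).ncard := le_antisymm h2.ncard_le h1.ncard_le
  obtain ⟨a, b, hab⟩ := h2
  have h3 : img δ e ⊆ (fun p => run δ p b) '' img δ g := by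
    rw [← img_congr hab, img_append]
    exact Set.image_mono (img_append_subset δ a g)
  have h4 : ((fun p => run δ p b) '' img δ g).ncard = (img δ g).ncard := by
    apply le_antisymm (Set.ncard_image_le (Set.toFinite _))
    rw [← hc]
    exact Set.ncard_le_ncard h3 (Set.toFinite _)
  have hinj : Set.InjOn (fun p => run δ p b) (img δ g) :=
    Set.injOn_of_ncard_image_eq h4 (Set.toFinite _)
  have himg : img δ e = (fun p => run δ p b) '' img δ g :=
    Set.eq_of_subset_of_ncard_le h3 (by rw [h4, hc]) (Set.toFinite _)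
  refine ⟨b ++ a, fun x hx => ?_⟩
  apply hinj _ hx
  · show run δ (run δ x (b ++ a ++ g)) b = run δ x b
    have h5 : run δ x b ∈ img δ e := by
      rw [himg]
      exact ⟨x, hx, rfl⟩
    have h6 := he.fix h5
    rw [← hab] at h6
    simp only [run_append] at h6 ⊢
    exact h6
  · exact img_append_subset δ _ _ ⟨x, rfl⟩

/-- Pairs of different states in the images of the words which divide `e` and are divided by it. -/
def PP (δ : Q → A → Q) (e : List A) : Set (Q × Q) :=
  {z | ∃ g, Divides δ e g ∧ Divides δ g e ∧ z ∈ (img δ g).offDiag}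

theorem ncard_offDiag [Finite Q] (L : Set Q) : L.offDiag.ncard = L.ncard * (L.ncard - 1) := by
  classical
  have : Fintype Q := Fintype.ofFinite Q
  rw [← Set.coe_toFinset L, ← Finset.coe_offDiag, Set.ncard_coe_finset, Set.ncard_coe_finset,
    Finset.offDiag_card, Nat.mul_sub_one]

theorem ncard_PP_le [Fintype Q] (δ : Q → A → Q) (e : List A) :
    (PP δ e).ncard ≤ Fintype.card Q * (Fintype.card Q - 1) := by
  have h1 := ncard_offDiag (Set.univ : Set Q)
  rw [Set.ncard_univ, Nat.card_eq_fintype_card] at h1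
  rw [← h1]
  refine Set.ncard_le_ncard ?_ (Set.toFinite _)
  rintro z ⟨g, _, _, hz⟩
  rw [Set.mem_offDiag] at hz ⊢
  exact ⟨trivial, trivial, hz.2.2⟩

theorem PP_nonempty [Finite Q] {δ : Q → A → Q} {e : List A} (he : MinIdem δ e) :
    (PP δ e).Nonempty := by
  obtain ⟨p, q, hne⟩ := he.two
  exact ⟨(run δ p e, run δ q e), e, Divides.refl δ e, Divides.refl δ e,
    Set.mem_offDiag.2 ⟨⟨p, rfl⟩, ⟨q, rfl⟩, hne⟩⟩

theorem exists_shortest_exit [Fintype Q] {δ : Q → A → Q} (hs : ∃ w, IsReset δ w) {e g : List A}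
    (he : MinIdem δ e) : ∃ z, ¬ Divides δ (g ++ z) e ∧
      ∀ z' : List A, z'.length < z.length → Divides δ (g ++ z') e := by
  classical
  have hex : ∃ k, ∃ z : List A, z.length = k ∧ ¬ Divides δ (g ++ z) e := by
    obtain ⟨w, q, hq⟩ := hs
    refine ⟨w.length, w, rfl, fun h => ?_⟩
    have h1 := h.right.ncard_le
    have h2 : img δ w ⊆ {q} := by
      rintro _ ⟨p, rfl⟩
      exact hq p
    have h3 := Set.ncard_le_ncard h2 (Set.toFinite _)
    rw [Set.ncard_singleton] at h3
    have h4 := he.two_le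
    omega
  obtain ⟨z, hz, hnd⟩ := Nat.find_spec hex
  refine ⟨z, hnd, fun z' hz' => ?_⟩
  by_contra hcon
  rw [hz] at hz'
  exact Nat.find_min hex hz' ⟨z', rfl, hcon⟩

/-- The exit lemma. -/
theorem exit [Fintype Q] {δ : Q → A → Q} (hs : ∃ w, IsReset δ w) {e g : List A}
    (he : MinIdem δ e) (h1 : Divides δ e g) :
    ∃ z, ¬ Divides δ (g ++ z) e ∧
      z.length * ((img δ e).ncard * ((img δ e).ncard - 1)) ≤ (PP δ e).ncard := by
  classical
  obtain ⟨z, hz, hmin⟩ := exists_shortest_exit (g := g) hs he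
  refine ⟨z, hz, ?_⟩
  have hrad : IsRadical δ (g ++ z) := by
    refine radical_of_not_div he ?_ hz
    exact h1.trans ⟨[], z, fun p => by rw [List.nil_append]⟩
  have hdiv : ∀ i < z.length, Divides δ (g ++ z.take i) e := by
    intro i hi
    apply hmin
    rw [List.length_take]
    omega
  have hdiv' : ∀ i : ℕ, Divides δ e (g ++ z.take i) := fun i =>
    h1.trans ⟨[], z.take i, fun p => by rw [List.nil_append]⟩
  have hdisj : ∀ i j : ℕ, i < j → j < z.length →
      Disjoint (img δ (g ++ z.take i)).offDiag (img δ (g ++ z.take j)).offDiag := by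
    intro i j hij hj
    rw [Set.disjoint_left]
    rintro ⟨p, q⟩ hpi hpj
    rw [Set.mem_offDiag] at hpi hpj
    simp only at hpi hpj
    have hshort : Divides δ (g ++ (z.take i ++ z.drop j)) e := by
      apply hmin
      rw [List.length_append, List.length_take, List.length_drop]
      omega
    obtain ⟨c, d, hcd⟩ := hdiv' i
    obtain ⟨a, b, hab⟩ := hshort
    have hret : img δ (g ++ z.take i) ⊆
        (fun p => run δ p (z.drop j ++ b ++ d)) '' img δ (g ++ z.take i) := by
      rintro _ ⟨r, rfl⟩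
      refine ⟨_, ⟨run δ r (c ++ a), rfl⟩, ?_⟩
      simp only
      rw [← hcd r]
      simp only [run_append] at hab ⊢
      rw [hab]
    obtain ⟨v, hv⟩ := exists_return hret
    obtain ⟨y, hy⟩ := exists_section he (hdiv' j) (hdiv j hj)
    refine radical_fix hrad y (b ++ d ++ v) ⟨p, q, hpi.2.2, ?_, ?_⟩
    · have h2 := hy p hpj.1
      have h3 := hv p hpi.1
      have h4 : run δ p (y ++ (g ++ z) ++ (b ++ d ++ v)) =
          run δ (run δ p (y ++ (g ++ z.take j))) (z.drop j ++ b ++ d ++ v) := by
        conv_lhs => rw [← List.take_append_drop j z]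
        simp only [run_append]
      rw [h4, h2, h3]
    · have h2 := hy q hpj.2.1
      have h3 := hv q hpi.2.1
      have h4 : run δ q (y ++ (g ++ z) ++ (b ++ d ++ v)) =
          run δ (run δ q (y ++ (g ++ z.take j))) (z.drop j ++ b ++ d ++ v) := by
        conv_lhs => rw [← List.take_append_drop j z]
        simp only [run_append]
      rw [h4, h2, h3]
  -- count
  have hcount : ∀ k ≤ z.length,
      (⋃ i ∈ Finset.range k, (img δ (g ++ z.take i)).offDiag).ncard =
        k * ((img δ e).ncard * ((img δ e).ncard - 1)) := by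
    intro k
    induction k with
    | zero => intro _; simp
    | succ k ih =>
      intro hk
      rw [Finset.range_add_one, Finset.set_biUnion_insert, Set.ncard_union_eq _ (Set.toFinite _)
        (Set.toFinite _), ih (by omega), ncard_offDiag,
        le_antisymm (hdiv' k).ncard_le (hdiv k (by omega)).ncard_le]
      · ring
      · rw [Set.disjoint_iUnion₂_right]
        intro i hi
        exact (hdisj i k (Finset.mem_range.1 hi) (by omega)).symm
  rw [← hcount z.length le_rfl]
  refine Set.ncard_le_ncard ?_ (Set.toFinite _)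
  intro π hπ
  rw [Set.mem_iUnion₂] at hπ
  obtain ⟨i, hi, hπ⟩ := hπ
  exact ⟨_, hdiv' i, hdiv i (Finset.mem_range.1 hi), hπ⟩

/-- The classes of two minimal idempotents with a common pair are equal. -/
theorem common [Fintype Q] {δ : Q → A → Q} {e e' : List A} (he : MinIdem δ e)
    (he' : MinIdem δ e') {π : Q × Q} (h : π ∈ PP δ e) (h' : π ∈ PP δ e') : Divides δ e' e := by
  obtain ⟨g, h1, h2, h3⟩ := h
  obtain ⟨g', h1', h2', h3'⟩ := h'
  obtain ⟨y, hy⟩ := exists_section he h1 h2
  obtain ⟨y', hy'⟩ := exists_section he' h1' h2'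
  rw [Set.mem_offDiag] at h3 h3'
  obtain ⟨a, b, hab⟩ := h1
  have hfix : FixTwo δ ((y ++ a) ++ e ++ (b ++ (y' ++ g'))) := by
    have key : ∀ r ∈ img δ g, r ∈ img δ g' → run δ r ((y ++ a) ++ e ++ (b ++ (y' ++ g'))) = r := by
      intro r hr hr'
      have k1 : run δ r ((y ++ a) ++ e ++ (b ++ (y' ++ g'))) =
          run δ (run δ (run δ r y) (a ++ e ++ b)) (y' ++ g') := by
        simp only [run_append]
      rw [k1, hab, ← run_append δ r, hy r hr, hy' r hr']
    exact ⟨π.1, π.2, h3.2.2, key _ h3.1 h3'.1, key _ h3.2.1 h3'.2.1⟩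
  have h4 := he.min _ _ hfix
  have h5 : Divides δ ((y ++ a ++ e ++ b ++ y') ++ g') e := by
    have : (y ++ a) ++ e ++ (b ++ (y' ++ g')) = (y ++ a ++ e ++ b ++ y') ++ g' := by
      simp only [List.append_assoc]
    rw [← this]
    exact h4
  exact h1'.trans h5.right

end Pool.Agent.Rad2
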